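import Pool.Agent.Lib.MP_3e612f_nt.NF.Base
import Pool.Agent.Lib.MP_3e612f_nt.MR.Main

/-! Constant functions, ordinary averages. -/

set_option autoImplicit false

namespace Pool.Agent.Lib.MP_3e612f_nt.NF

open Finset
open Pool.Agent.Lib.MP_3e612f_nt.MR (mu ex)

/-- `MR.mr` for the modulus 1, summed by parts or directly (`∑_{n ≤ N} |∑_{h=1}^H μ(n+h)| ≤ ε H N`): compare F/LogMR. -/
theorem mr_o (ε : ℝ) (hε : 0 < ε) : ∃ H₀ : ℕ, ∀ H : ℕ, H₀ ≤ H → ∃ N₀ : ℕ, ∀ N : ℕ, N₀ ≤ N →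
    ∑ n ∈ Icc 1 N, ‖∑ h ∈ Icc 1 H, (mu (n + h) : ℂ)‖ ≤ ε * H * N := by
  obtain ⟨h₀, hh⟩ := Pool.Agent.Lib.MP_3e612f_nt.MR.mr 1 (ε / 2) (by positivity)
  refine ⟨h₀, fun H hH => ?_⟩
  obtain ⟨X₀, hX⟩ := hh H hH
  obtain ⟨b, hb⟩ : ∃ b : ℕ → ℝ, b = fun x => |∑ i ∈ range H, mu (x + i)| := ⟨_, rfl⟩
  have hb0 : ∀ x, 0 ≤ b x := fun x => by
    rw [hb]
    exact abs_nonneg _
  have hbS : ∀ X, X₀ ≤ X → ∑ x ∈ range X, b x ≤ ε / 2 * H * X := by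
    intro X hXX
    have h1 := hX X hXX 0
    refine le_trans (le_of_eq ?_) h1
    refine sum_congr rfl fun x _ => ?_
    rw [hb]
    beta_reduce
    refine congrArg _ (sum_congr rfl fun i _ => ?_)
    rw [if_pos (Subsingleton.elim _ _)]
    rfl
  have hnorm : ∀ n, ‖∑ h ∈ Icc 1 H, (mu (n + h) : ℂ)‖ = b (n + 1) := by
    intro n
    have h1 : ∑ h ∈ Icc 1 H, (mu (n + h) : ℂ) = ((∑ i ∈ range H, mu (n + 1 + i) : ℝ) : ℂ) := by
      have h2 : Icc 1 H = Ico 1 (H + 1) := by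
        ext x
        rw [mem_Icc, mem_Ico]
        omega
      rw [h2, sum_Ico_eq_sum_range, Complex.ofReal_sum, Nat.add_sub_cancel]
      refine sum_congr rfl fun i _ => ?_
      rw [← add_assoc]
    rw [h1, Complex.norm_real, Real.norm_eq_abs, hb]
  refine ⟨max X₀ 2, fun N hN => ?_⟩
  have hN0 : X₀ ≤ N := (le_max_left _ _).trans hN
  have hN2 : 2 ≤ N := (le_max_right _ _).trans hN
  have h1 : ∑ n ∈ Icc 1 N, ‖∑ h ∈ Icc 1 H, (mu (n + h) : ℂ)‖ = ∑ n ∈ Icc 1 N, b (n + 1) :=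
    sum_congr rfl fun n _ => hnorm n
  have h2 : ∑ m ∈ Icc 1 N, b (m + 1) ≤ ∑ x ∈ range (N + 2), b x := by
    rw [← sum_image (f := b) (g := fun m => m + 1) (s := Icc 1 N)
      (fun a _ c _ hac => Nat.succ_injective hac)]
    refine sum_le_sum_of_subset_of_nonneg ?_ fun x _ _ => hb0 x
    intro x hx
    rw [mem_image] at hx
    obtain ⟨m, hm, rfl⟩ := hx
    rw [mem_Icc] at hm
    rw [mem_range]
    omega
  have h3 := hbS (N + 2) (by omega)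
  rw [h1]
  refine h2.trans (h3.trans ?_)
  have h4 : (2 : ℝ) ≤ N := by exact_mod_cast hN2
  have h5 : 0 ≤ ε * H := by positivity
  push_cast
  nlinarith

end Pool.Agent.Lib.MP_3e612f_nt.NF
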