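import Pool.Agent.Lib.MP_3e612f_nt.NF.Base

/-! Averages of a periodic function along a slowly moving monomial. -/

set_option autoImplicit false

namespace Pool.Agent.Lib.MP_3e612f_nt.NF

open Finset
open Pool.Agent.Lib.MP_3e612f_nt.MR (mu ex)

/-- the integral of a nonnegative periodic function over an interval -/
theorem integral_per_le (g : ℝ → ℝ) (hg0 : ∀ x, 0 ≤ g x) (hper : ∀ x, ∀ z : ℤ, g (x + z) = g x) (hcont : Continuous g) (a b : ℝ) (hab : a ≤ b) :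
    ∫ x in a..b, g x ≤ (b - a + 1) * ∫ x in (0 : ℝ)..1, g x := by
  have hP : Function.Periodic g 1 := fun x => by simpa using hper x 1
  have hI : ∀ u v : ℝ, IntervalIntegrable g MeasureTheory.volume u v := fun u v => hcont.intervalIntegrable u v
  have h0 : 0 ≤ ∫ x in (0 : ℝ)..1, g x := intervalIntegral.integral_nonneg (by norm_num) fun x _ => hg0 x
  obtain ⟨n, hn⟩ : ∃ n : ℕ, n = ⌈b - a⌉₊ := ⟨_, rfl⟩
  have hn1 : b - a ≤ n := by rw [hn]; exact Nat.le_ceil _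
  have hn2 : (n : ℝ) < b - a + 1 := by rw [hn]; exact Nat.ceil_lt_add_one (by linarith)
  have h1 : ∫ x in a..b, g x ≤ ∫ x in a..(a + n), g x := by
    have h2 := intervalIntegral.integral_add_adjacent_intervals (hI a b) (hI b (a + n))
    have h3 : 0 ≤ ∫ x in b..(a + n), g x := intervalIntegral.integral_nonneg (by linarith) fun x _ => hg0 x
    linarith
  have h2 : ∫ x in a..(a + n), g x = n * ∫ x in (0 : ℝ)..1, g x := by
    have h3 := hP.intervalIntegral_add_zsmul_eq (n : ℤ) a (hI)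
    have h4 := hP.intervalIntegral_add_eq a 0
    simp only [zsmul_eq_mul, Int.cast_natCast, mul_one, zero_add] at h3 h4
    rw [h3, h4]
  rw [h2] at h1
  exact h1.trans (mul_le_mul_of_nonneg_right hn2.le h0)

theorem avg_exc_pow_ge (t : ℕ) (a b : ℝ) (hb : 0 ≤ b) (hab : b ≤ a) : (t : ℝ) * b ^ (t - 1) * (a - b) ≤ a ^ t - b ^ t := by
  rw [← geom_sum₂_mul]
  apply mul_le_mul_of_nonneg_right _ (sub_nonneg.2 hab)
  have h1 : (t : ℝ) * b ^ (t - 1) = ∑ i ∈ range t, b ^ (t - 1) := by simp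
  rw [h1]
  apply sum_le_sum
  intro i hi
  have hi' : i < t := mem_range.1 hi
  have h2 : b ^ (t - 1) = b ^ i * b ^ (t - 1 - i) := by
    rw [← pow_add]
    congr 1
    omega
  rw [h2]
  exact mul_le_mul_of_nonneg_right (pow_le_pow_left₀ hb hab i) (pow_nonneg hb _)

theorem avg_exc_pow_le (t : ℕ) (a b : ℝ) (hb : 0 ≤ b) (hab : b ≤ a) : a ^ t - b ^ t ≤ (t : ℝ) * a ^ (t - 1) * (a - b) := by
  rw [← geom_sum₂_mul]
  apply mul_le_mul_of_nonneg_right _ (sub_nonneg.2 hab)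
  have h1 : (t : ℝ) * a ^ (t - 1) = ∑ i ∈ range t, a ^ (t - 1) := by simp
  rw [h1]
  apply sum_le_sum
  intro i hi
  have hi' : i < t := mem_range.1 hi
  have h2 : a ^ (t - 1) = a ^ i * a ^ (t - 1 - i) := by
    rw [← pow_add]
    congr 1
    omega
  rw [h2]
  exact mul_le_mul_of_nonneg_left (pow_le_pow_left₀ hb hab _) (pow_nonneg (hb.trans hab) _)

/-- Riemann sum for a nonnegative Lipschitz function along a sequence with small positive increments -/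
theorem avg_exc_riemann (g : ℝ → ℝ) (Lip : ℝ) (hLip0 : 0 ≤ Lip) (hg0 : ∀ x, 0 ≤ g x) (hcont : Continuous g) (hLip : ∀ x y, |g x - g y| ≤ Lip * |x - y|)
    (y : ℕ → ℝ) (c₁ c₂ : ℝ) (M : ℕ) (h1 : ∀ i < M, c₁ ≤ y (i + 1) - y i) (h2 : ∀ i < M, y (i + 1) - y i ≤ c₂) (h3 : ∀ i < M, y i ≤ y (i + 1)) :
    c₁ * ∑ i ∈ range M, g (y i) ≤ (∫ x in (y 0)..(y M), g x) + Lip * c₂ * (y M - y 0) := by
  induction M with
  | zero => simp
  | succ M ih =>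
    have ih' := ih (fun i hi => h1 i (by omega)) (fun i hi => h2 i (by omega)) (fun i hi => h3 i (by omega))
    have hI : ∀ u v : ℝ, IntervalIntegrable g MeasureTheory.volume u v := fun u v => hcont.intervalIntegrable u v
    rw [sum_range_succ, mul_add]
    have h4 := intervalIntegral.integral_add_adjacent_intervals (hI (y 0) (y M)) (hI (y M) (y (M + 1)))
    have h5 : c₁ * g (y M) ≤ (y (M + 1) - y M) * g (y M) := mul_le_mul_of_nonneg_right (h1 M (by omega)) (hg0 _)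
    have hm := h3 M (by omega)
    have h6 : (y (M + 1) - y M) * (g (y M) - Lip * (y (M + 1) - y M)) ≤ ∫ x in (y M)..(y (M + 1)), g x := by
      have h7 : ∫ x in (y M)..(y (M + 1)), (g (y M) - Lip * (y (M + 1) - y M)) = (y (M + 1) - y M) * (g (y M) - Lip * (y (M + 1) - y M)) := by
        rw [intervalIntegral.integral_const, smul_eq_mul]
      rw [← h7]
      apply intervalIntegral.integral_mono_on hm (by simp) (hI _ _)
      intro x hx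
      have h8 := hLip (y M) x
      have h9 : |y M - x| ≤ y (M + 1) - y M := by
        rw [abs_sub_comm, abs_of_nonneg (by linarith [hx.1])]
        linarith [hx.2]
      have h10 := (abs_le.1 h8).2
      have h11 := mul_le_mul_of_nonneg_left h9 hLip0
      linarith
    have h7 : Lip * (y (M + 1) - y M) * (y (M + 1) - y M) ≤ Lip * c₂ * (y (M + 1) - y M) := by
      apply mul_le_mul_of_nonneg_right _ (sub_nonneg.2 hm)
      exact mul_le_mul_of_nonneg_left (h2 M (by omega)) hLip0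
    have h8 : (y (M + 1) - y M) * (g (y M) - Lip * (y (M + 1) - y M)) = (y (M + 1) - y M) * g (y M) - Lip * (y (M + 1) - y M) * (y (M + 1) - y M) := by ring
    have h9 : Lip * c₂ * (y (M + 1) - y 0) = Lip * c₂ * (y M - y 0) + Lip * c₂ * (y (M + 1) - y M) := by ring
    linarith

theorem avg_exc_cont (g : ℝ → ℝ) (Lip : ℝ) (hLip : ∀ x y, |g x - g y| ≤ Lip * |x - y|) (hLip0 : 0 ≤ Lip) : Continuous g := by
  have h : LipschitzWith Lip.toNNReal g := by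
    apply LipschitzWith.of_dist_le_mul
    intro x y
    rw [Real.dist_eq, Real.dist_eq, Real.coe_toNNReal _ hLip0]
    exact hLip x y
  exact h.continuous

theorem avg_exc_Lip0 (g : ℝ → ℝ) (Lip : ℝ) (hLip : ∀ x y, |g x - g y| ≤ Lip * |x - y|) : 0 ≤ Lip := by
  have h := hLip 1 0
  have h1 := abs_nonneg (g 1 - g 0)
  simp only [sub_zero, abs_one, mul_one] at h
  linarith

/-- the positive case -/
theorem avg_exc_pos (t : ℕ) (ht : 1 ≤ t) (g : ℝ → ℝ) (Lip : ℝ) (hg0 : ∀ x, 0 ≤ g x) (hper : ∀ x, ∀ z : ℤ, g (x + z) = g x) (hLip : ∀ x y, |g x - g y| ≤ Lip * |x - y|)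
    (ρ₀ C₁ δ : ℝ) (hρ₀ : 0 < ρ₀) (hC₁ : 0 < C₁) (hδ : (5 ^ t * C₁ + 1) * ∫ x in (0 : ℝ)..1, g x ≤ 3 * t * ρ₀ * δ) (M : ℕ) (hM1 : 1 ≤ M)
    (hM : Lip * (4 * t * 5 ^ (t - 1) * C₁) * (5 ^ t * C₁) ≤ 3 * t * ρ₀ * δ * M) (X ℓ : ℕ) (θ τ : ℝ) (hX : 1 ≤ X) (h3 : 3 * X ≤ ℓ * M) (h4 : ℓ * M ≤ 4 * X)
    (hθ : 0 < θ) (hρ : ρ₀ ≤ θ * (X : ℝ) ^ t) (hC : θ * (X : ℝ) ^ t ≤ C₁) :
      ∑ i ∈ range M, g (τ + θ * ((X : ℝ) + i * ℓ) ^ t) ≤ 2 * δ * M := by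
  have hLip0 := avg_exc_Lip0 g Lip hLip
  have hcont := avg_exc_cont g Lip hLip hLip0
  have hXR : (1 : ℝ) ≤ X := by exact_mod_cast hX
  have hMR : (1 : ℝ) ≤ M := by exact_mod_cast hM1
  have hMpos : (0 : ℝ) < M := by linarith
  have htR : (1 : ℝ) ≤ t := by exact_mod_cast ht
  have h3R : 3 * (X : ℝ) ≤ ℓ * M := by exact_mod_cast h3
  have h4R : (ℓ : ℝ) * M ≤ 4 * X := by exact_mod_cast h4
  have hℓ0 : (0 : ℝ) ≤ ℓ := by positivity
  have hX0 : (0 : ℝ) ≤ X := by positivity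
  have hXt : (X : ℝ) ^ (t - 1) * X = (X : ℝ) ^ t := by
    rw [← pow_succ]
    congr 1
    omega
  have h5t : (5 : ℝ) ^ (t - 1) * 5 = (5 : ℝ) ^ t := by
    rw [← pow_succ]
    congr 1
    omega
  obtain ⟨y, hy⟩ : ∃ y : ℕ → ℝ, y = fun i : ℕ => τ + θ * ((X : ℝ) + i * ℓ) ^ t := ⟨_, rfl⟩
  have hyi : ∀ i, y i = τ + θ * ((X : ℝ) + i * ℓ) ^ t := fun i => by rw [hy]
  have hbase : ∀ i : ℕ, 0 ≤ (X : ℝ) + i * ℓ := fun i => by positivity
  have hstep : ∀ i : ℕ, (X : ℝ) + ((i + 1 : ℕ) : ℝ) * ℓ - ((X : ℝ) + i * ℓ) = ℓ := fun i => by push_cast; ring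
  have hmono : ∀ i : ℕ, (X : ℝ) + i * ℓ ≤ (X : ℝ) + ((i + 1 : ℕ) : ℝ) * ℓ := fun i => by
    have := hstep i
    linarith
  have hdiff : ∀ i : ℕ, y (i + 1) - y i = θ * (((X : ℝ) + ((i + 1 : ℕ) : ℝ) * ℓ) ^ t - ((X : ℝ) + i * ℓ) ^ t) := fun i => by
    rw [hyi, hyi]
    ring
  have hlow : ∀ i < M, 3 * t * ρ₀ / M ≤ y (i + 1) - y i := by
    intro i _
    rw [hdiff i, div_le_iff₀ hMpos]
    have h5 := avg_exc_pow_ge t _ _ (hbase i) (hmono i)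
    rw [hstep i] at h5
    have h6 : (X : ℝ) ^ (t - 1) ≤ ((X : ℝ) + i * ℓ) ^ (t - 1) := by
      apply pow_le_pow_left₀ hX0
      have : (0 : ℝ) ≤ i * ℓ := by positivity
      linarith
    have h7 : (t : ℝ) * (X : ℝ) ^ (t - 1) * ℓ ≤ ((X : ℝ) + ((i + 1 : ℕ) : ℝ) * ℓ) ^ t - ((X : ℝ) + i * ℓ) ^ t := by
      refine le_trans ?_ h5
      apply mul_le_mul_of_nonneg_right _ hℓ0
      exact mul_le_mul_of_nonneg_left h6 (by positivity)
    calc 3 * (t : ℝ) * ρ₀ ≤ 3 * t * (θ * (X : ℝ) ^ t) := mul_le_mul_of_nonneg_left hρ (by positivity)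
      _ = θ * (t * (X : ℝ) ^ (t - 1)) * (3 * X) := by rw [← hXt]; ring
      _ ≤ θ * (t * (X : ℝ) ^ (t - 1)) * (ℓ * M) := mul_le_mul_of_nonneg_left h3R (by positivity)
      _ = θ * (t * (X : ℝ) ^ (t - 1) * ℓ) * M := by ring
      _ ≤ θ * (((X : ℝ) + ((i + 1 : ℕ) : ℝ) * ℓ) ^ t - ((X : ℝ) + i * ℓ) ^ t) * M := by
        apply mul_le_mul_of_nonneg_right _ hMpos.le
        exact mul_le_mul_of_nonneg_left h7 hθ.le
  have hupp : ∀ i < M, y (i + 1) - y i ≤ 4 * t * 5 ^ (t - 1) * C₁ / M := by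
    intro i hi
    rw [hdiff i, le_div_iff₀ hMpos]
    have h5 := avg_exc_pow_le t _ _ (hbase i) (hmono i)
    rw [hstep i] at h5
    have h6 : ((X : ℝ) + ((i + 1 : ℕ) : ℝ) * ℓ) ^ (t - 1) ≤ (5 * (X : ℝ)) ^ (t - 1) := by
      apply pow_le_pow_left₀ (hbase (i + 1))
      have h7 : ((i + 1 : ℕ) : ℝ) ≤ M := by exact_mod_cast hi
      have h8 : ((i + 1 : ℕ) : ℝ) * ℓ ≤ ℓ * M := by
        rw [mul_comm]
        exact mul_le_mul_of_nonneg_left h7 hℓ0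
      linarith
    have h7 : ((X : ℝ) + ((i + 1 : ℕ) : ℝ) * ℓ) ^ t - ((X : ℝ) + i * ℓ) ^ t ≤ (t : ℝ) * (5 * (X : ℝ)) ^ (t - 1) * ℓ := by
      refine le_trans h5 ?_
      apply mul_le_mul_of_nonneg_right _ hℓ0
      exact mul_le_mul_of_nonneg_left h6 (by positivity)
    calc θ * (((X : ℝ) + ((i + 1 : ℕ) : ℝ) * ℓ) ^ t - ((X : ℝ) + i * ℓ) ^ t) * M
        ≤ θ * ((t : ℝ) * (5 * (X : ℝ)) ^ (t - 1) * ℓ) * M := by
          apply mul_le_mul_of_nonneg_right _ hMpos.le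
          exact mul_le_mul_of_nonneg_left h7 hθ.le
      _ = θ * ((t : ℝ) * (5 * (X : ℝ)) ^ (t - 1)) * (ℓ * M) := by ring
      _ ≤ θ * ((t : ℝ) * (5 * (X : ℝ)) ^ (t - 1)) * (4 * X) := mul_le_mul_of_nonneg_left h4R (by positivity)
      _ = 4 * t * 5 ^ (t - 1) * (θ * (X : ℝ) ^ t) := by rw [← hXt, mul_pow]; ring
      _ ≤ 4 * t * 5 ^ (t - 1) * C₁ := mul_le_mul_of_nonneg_left hC (by positivity)
  have hnn : ∀ i < M, y i ≤ y (i + 1) := by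
    intro i hi
    have h5 := hlow i hi
    have h6 : 0 ≤ 3 * t * ρ₀ / M := by positivity
    linarith
  have hlen : y M - y 0 ≤ 5 ^ t * C₁ := by
    rw [hyi, hyi]
    have h5 : ((X : ℝ) + (M : ℝ) * ℓ) ^ t ≤ (5 * (X : ℝ)) ^ t := by
      apply pow_le_pow_left₀ (hbase M)
      linarith
    have h6 : (0 : ℝ) ≤ ((X : ℝ) + ((0 : ℕ) : ℝ) * ℓ) ^ t := pow_nonneg (hbase 0) _
    calc τ + θ * ((X : ℝ) + (M : ℝ) * ℓ) ^ t - (τ + θ * ((X : ℝ) + ((0 : ℕ) : ℝ) * ℓ) ^ t)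
        = θ * ((X : ℝ) + (M : ℝ) * ℓ) ^ t - θ * ((X : ℝ) + ((0 : ℕ) : ℝ) * ℓ) ^ t := by ring
      _ ≤ θ * (5 * (X : ℝ)) ^ t := by
        have h7 := mul_le_mul_of_nonneg_left h5 hθ.le
        have h8 := mul_nonneg hθ.le h6
        linarith
      _ = 5 ^ t * (θ * (X : ℝ) ^ t) := by rw [mul_pow]; ring
      _ ≤ 5 ^ t * C₁ := mul_le_mul_of_nonneg_left hC (by positivity)
  have hy0M : y 0 ≤ y M := by
    rw [hyi, hyi]
    have h5 : ((X : ℝ) + ((0 : ℕ) : ℝ) * ℓ) ^ t ≤ ((X : ℝ) + (M : ℝ) * ℓ) ^ t := by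
      apply pow_le_pow_left₀ (hbase 0)
      have : (0 : ℝ) ≤ (M : ℝ) * ℓ := by positivity
      push_cast
      linarith
    have h7 := mul_le_mul_of_nonneg_left h5 hθ.le
    linarith
  have hR := avg_exc_riemann g Lip hLip0 hg0 hcont hLip y _ _ M hlow hupp hnn
  have hI := integral_per_le g hg0 hper hcont (y 0) (y M) hy0M
  have h0 : 0 ≤ ∫ x in (0 : ℝ)..1, g x := intervalIntegral.integral_nonneg (by norm_num) fun x _ => hg0 x
  have hI2 : (y M - y 0 + 1) * ∫ x in (0 : ℝ)..1, g x ≤ (5 ^ t * C₁ + 1) * ∫ x in (0 : ℝ)..1, g x :=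
    mul_le_mul_of_nonneg_right (by linarith) h0
  have hE : Lip * (4 * t * 5 ^ (t - 1) * C₁ / M) * (y M - y 0) ≤ 3 * t * ρ₀ * δ := by
    have h5 : Lip * (4 * t * 5 ^ (t - 1) * C₁ / M) * (y M - y 0) ≤ Lip * (4 * t * 5 ^ (t - 1) * C₁ / M) * (5 ^ t * C₁) :=
      mul_le_mul_of_nonneg_left hlen (by positivity)
    refine h5.trans ?_
    have h6 : Lip * (4 * t * 5 ^ (t - 1) * C₁ / M) * (5 ^ t * C₁) = Lip * (4 * t * 5 ^ (t - 1) * C₁) * (5 ^ t * C₁) / M := by ring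
    rw [h6, div_le_iff₀ hMpos]
    exact hM
  have hfin : 3 * t * ρ₀ / M * ∑ i ∈ range M, g (y i) ≤ 2 * (3 * t * ρ₀ * δ) := by linarith
  have hS : ∑ i ∈ range M, g (τ + θ * ((X : ℝ) + i * ℓ) ^ t) = ∑ i ∈ range M, g (y i) := sum_congr rfl fun i _ => by rw [hyi]
  rw [hS]
  have hcpos : 0 < 3 * (t : ℝ) * ρ₀ / M := by positivity
  have h5 : 3 * t * ρ₀ / M * (2 * δ * M) = 2 * (3 * t * ρ₀ * δ) := by
    field_simp
  rw [← h5] at hfin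
  exact le_of_mul_le_mul_left hfin hcpos

/-- Replace `θ` by `-θ` and `g` by `x ↦ g(-x)` if `θ < 0`. `y_i = θ (X + iℓ)^t`, `Δ_i = y_{i+1} - y_i`: `3 t ρ₀/M ≤ t θ X^{t-1} ℓ ≤ Δ_i ≤ t θ (5X)^{t-1} ℓ ≤ 4 t 5^{t-1} C₁/M`, `y_M - y_0 ≤ 5^t C₁`. `Δ_i g(τ + y_i) ≤ ∫_{y_i}^{y_{i+1}} g(τ + y) dy + Lip Δ_i²`; sum over `i < M`:
`(3 t ρ₀/M) ∑_i g(τ + y_i) ≤ (5^t C₁ + 1) ∫_0^1 g + Lip (4 t 5^{t-1} C₁/M) 5^t C₁`. The first term is at most `3 t ρ₀ δ` by `hδ`, the second one too if `M ≥ M₀`. -/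
theorem avg_exc (t : ℕ) (ht : 1 ≤ t) (g : ℝ → ℝ) (Lip : ℝ) (hg0 : ∀ x, 0 ≤ g x) (hper : ∀ x, ∀ z : ℤ, g (x + z) = g x) (hLip : ∀ x y, |g x - g y| ≤ Lip * |x - y|)
    (ρ₀ C₁ δ : ℝ) (hρ₀ : 0 < ρ₀) (hC₁ : 0 < C₁) (hδ0 : 0 < δ) (hδ : (5 ^ t * C₁ + 1) * ∫ x in (0 : ℝ)..1, g x ≤ 3 * t * ρ₀ * δ) :
    ∃ M₀ : ℕ, ∀ M : ℕ, M₀ ≤ M → ∀ (X ℓ : ℕ) (θ τ : ℝ), 1 ≤ X → 3 * X ≤ ℓ * M → ℓ * M ≤ 4 * X → ρ₀ ≤ |θ| * (X : ℝ) ^ t → |θ| * (X : ℝ) ^ t ≤ C₁ →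
      ∑ i ∈ range M, g (τ + θ * ((X : ℝ) + i * ℓ) ^ t) ≤ 2 * δ * M := by
  have htR : (1 : ℝ) ≤ t := by exact_mod_cast ht
  have hpos : 0 < 3 * (t : ℝ) * ρ₀ * δ := by positivity
  obtain ⟨M₁, hM₁⟩ := exists_nat_ge (Lip * (4 * t * 5 ^ (t - 1) * C₁) * (5 ^ t * C₁) / (3 * t * ρ₀ * δ))
  refine ⟨M₁ + 1, fun M hM X ℓ θ τ hX h3 h4 hρ hC => ?_⟩
  have hM' : Lip * (4 * t * 5 ^ (t - 1) * C₁) * (5 ^ t * C₁) ≤ 3 * t * ρ₀ * δ * M := by
    have h5 : (M₁ : ℝ) ≤ M := by exact_mod_cast (by omega : M₁ ≤ M)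
    have h6 := hM₁.trans h5
    rw [div_le_iff₀ hpos] at h6
    linarith
  have hθ0 : θ ≠ 0 := by
    rintro rfl
    simp only [abs_zero, zero_mul] at hρ
    linarith
  rcases lt_or_gt_of_ne hθ0 with hθ | hθ
  · rw [abs_of_neg hθ] at hρ hC
    have hI : ∫ x in (0 : ℝ)..1, g (-x) = ∫ x in (0 : ℝ)..1, g x := by
      rw [intervalIntegral.integral_comp_neg]
      have hP : Function.Periodic g 1 := fun x => by simpa using hper x 1
      have h5 := hP.intervalIntegral_add_eq (-1) 0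
      simpa using h5
    have h6 := avg_exc_pos t ht (fun x => g (-x)) Lip (fun x => hg0 _) (fun x z => by
        have h7 := hper (-x) (-z)
        have h8 : -(x + (z : ℝ)) = -x + ((-z : ℤ) : ℝ) := by push_cast; ring
        rw [h8, h7]) (fun x y => by
        have h7 := hLip (-x) (-y)
        have h8 : -x - -y = -(x - y) := by ring
        rwa [h8, abs_neg] at h7) ρ₀ C₁ δ hρ₀ hC₁ (by rw [hI]; exact hδ) M (by omega) hM' X ℓ (-θ) (-τ) hX h3 h4 (by linarith) hρ hC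
    refine le_trans (le_of_eq (sum_congr rfl fun i _ => ?_)) h6
    have h8 : -(-τ + -θ * ((X : ℝ) + i * ℓ) ^ t) = τ + θ * ((X : ℝ) + i * ℓ) ^ t := by ring
    show g _ = g (-(-τ + -θ * ((X : ℝ) + i * ℓ) ^ t))
    rw [h8]
  · rw [abs_of_pos hθ] at hρ hC
    exact avg_exc_pos t ht g Lip hg0 hper hLip ρ₀ C₁ δ hρ₀ hC₁ hδ M (by omega) hM' X ℓ θ τ hX h3 h4 hθ hρ hC

end Pool.Agent.Lib.MP_3e612f_nt.NF
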