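import Pool.Agent.Lib.MP_3e612f_nt.NF.O.Exc
import Pool.Agent.Lib.MP_3e612f_nt.NF.U.BlockAlt
import Pool.Agent.Lib.MP_3e612f_nt.NF.U.Maj
import Pool.Agent.Lib.MP_3e612f_nt.NF.U.Cheb

/-! The sieve bound in every block of primes, null sets. -/

set_option autoImplicit false

namespace Pool.Agent.Lib.MP_3e612f_nt.NF

open Finset
open Pool.Agent.Lib.MP_3e612f_nt.MR (mu ex)

open scoped Classical in
/-- `cheb_low`: `∑_{PB j} 1/p ≥ c/j`. `exists_maj` (`v = 0`, `δ' = δ c/(Ct + 1)`): `T`; `block_alt`: `r₀ =: R₀`, `C₁`. Given `ρ₀`: `exc` with `δ c`: `ρ'`; `ρ = min`. First alternative: `1/p ≤ 1/4^j` and `1 ≤ T` near `C`: at most `Ct c₀/j ≤ δ c/j`. Second: `exc` with `θ = γ - b/r`. -/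
theorem block_null (t : ℕ) (ht : 1 ≤ t) (C : Set ℝ) (hC : IsClosed C) (hper : ∀ x ∈ C, ∀ z : ℤ, x + z ∈ C) (h0 : MeasureTheory.volume C = 0) (δ : ℝ) (hδ : 0 < δ) :
    ∃ R₀ : ℕ, ∀ ρ₀ : ℝ, 0 < ρ₀ → ∃ ρ : ℝ, 0 < ρ ∧ ∃ j₀ : ℕ, ∀ j : ℕ, j₀ ≤ j → ∀ γ : ℝ,
      ∑ p ∈ PB j, (if (∃ x ∈ C, |(p : ℝ) ^ t * γ - x| ≤ ρ) ∧ (∀ r : ℕ, 1 ≤ r → r < R₀ → ∀ b : ℤ, ρ₀ ≤ |(p : ℝ) ^ t * γ - b / r|) then 1 / (p : ℝ) else 0)
        ≤ δ * ∑ p ∈ PB j, 1 / (p : ℝ) := by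
  obtain ⟨Ct, hCt, hblock⟩ := block_alt t ht
  obtain ⟨c, hc, jl, hlow⟩ := cheb_low
  have hvol : MeasureTheory.volume (C ∩ Set.Ico 0 1) ≤ ENNReal.ofReal 0 := by
    rw [ENNReal.ofReal_zero, ← h0]
    exact MeasureTheory.measure_mono Set.inter_subset_left
  obtain ⟨L, co, T, c₀, hTM, hc₀, ρ₁, hρ₁, hT⟩ :=
    exists_maj C hC hper 0 (δ * c / Ct) le_rfl (by positivity) hvol
  obtain ⟨r₀, C₁, hC₁, j₁, hJ⟩ := hblock L co T c₀ hTM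
  refine ⟨r₀, fun ρ₀ hρ₀ => ?_⟩
  obtain ⟨ρ₂, hρ₂, j₂, hexc⟩ :=
    exc t ht C hC hper h0 r₀ ρ₀ C₁ (δ * c) hρ₀ (by linarith) (by positivity)
  refine ⟨min ρ₁ ρ₂, lt_min hρ₁ hρ₂, j₁ + j₂ + jl + 1, fun j hj γ => ?_⟩
  have hj0 : (0 : ℝ) < j := by exact_mod_cast (by omega : 0 < j)
  have hlowj : c / j ≤ ∑ p ∈ PB j, 1 / (p : ℝ) := hlow j (by omega)
  have h40 : (0 : ℝ) < (4 : ℝ) ^ j := by positivity
  have hp4 : ∀ p ∈ PB j, (4 : ℝ) ^ j < p := by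
    intro p hp
    have := PB_low hp
    exact_mod_cast this
  refine le_trans ?_ (mul_le_mul_of_nonneg_left hlowj hδ.le)
  rcases hJ ρ₀ hρ₀ γ j (by omega) with h1 | ⟨b, r, hr1, hr2, -, hlo, hhi⟩
  · -- the majorant
    have h2 : ∑ p ∈ PB j, (if (∃ x ∈ C, |(p : ℝ) ^ t * γ - x| ≤ min ρ₁ ρ₂) ∧ (∀ r : ℕ, 1 ≤ r → r < r₀ → ∀ b : ℤ, ρ₀ ≤ |(p : ℝ) ^ t * γ - b / r|) then 1 / (p : ℝ) else 0)
        ≤ (∑ p ∈ (Ioc (4 ^ j : ℕ) (4 ^ (j + 1))).filter (fun p : ℕ => p.Prime ∧ ∀ r : ℕ, 1 ≤ r → r < r₀ → ∀ b : ℤ, ρ₀ ≤ |(p : ℝ) ^ t * γ - b / r|), T ((p : ℝ) ^ t * γ)) / (4 : ℝ) ^ j := by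
      rw [← filter_filter, sum_div, sum_filter (s := (Ioc (4 ^ j : ℕ) (4 ^ (j + 1))).filter Nat.Prime)]
      refine sum_le_sum fun p hp => ?_
      have hpj := hp4 p hp
      by_cases hfar : ∀ r : ℕ, 1 ≤ r → r < r₀ → ∀ b : ℤ, ρ₀ ≤ |(p : ℝ) ^ t * γ - b / r|
      · rw [if_pos hfar]
        by_cases hnear : ∃ x ∈ C, |(p : ℝ) ^ t * γ - x| ≤ min ρ₁ ρ₂
        · rw [if_pos ⟨hnear, hfar⟩]
          obtain ⟨x, hx, hx1⟩ := hnear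
          have := hT _ ⟨x, hx, hx1.trans (min_le_left _ _)⟩
          exact div_le_div₀ (by linarith) this h40 hpj.le
        · rw [if_neg (fun h => hnear h.1)]
          exact div_nonneg (hTM.nonneg _) h40.le
      · rw [if_neg hfar, if_neg (fun h => hfar h.2)]
    refine h2.trans ?_
    rw [div_le_iff₀ h40]
    refine h1.trans ?_
    have h3 : Ct * c₀ ≤ δ * c := by
      have h4 : c₀ ≤ δ * c / Ct := by linarith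
      rw [le_div_iff₀ hCt] at h4
      linarith
    calc Ct * c₀ * ((4 : ℝ) ^ j / j) ≤ δ * c * ((4 : ℝ) ^ j / j) :=
          mul_le_mul_of_nonneg_right h3 (by positivity)
      _ = δ * (c / j) * (4 : ℝ) ^ j := by ring
  · -- the exceptional case
    have h1 := hexc j (by omega) b r (γ - b / r) hr1 hr2 hlo hhi
    have h2 : ∑ p ∈ PB j, (if (∃ x ∈ C, |(p : ℝ) ^ t * γ - x| ≤ min ρ₁ ρ₂) ∧ (∀ r : ℕ, 1 ≤ r → r < r₀ → ∀ b : ℤ, ρ₀ ≤ |(p : ℝ) ^ t * γ - b / r|) then 1 / (p : ℝ) else 0)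
        ≤ (∑ p ∈ PB j, (if ∃ x ∈ C, |(p : ℝ) ^ t * (b / r + (γ - b / r)) - x| ≤ ρ₂ then (1 : ℝ) else 0)) / (4 : ℝ) ^ j := by
      rw [sum_div]
      refine sum_le_sum fun p hp => ?_
      have hpj := hp4 p hp
      rw [add_sub_cancel]
      by_cases hnear : (∃ x ∈ C, |(p : ℝ) ^ t * γ - x| ≤ min ρ₁ ρ₂) ∧ (∀ r : ℕ, 1 ≤ r → r < r₀ → ∀ b : ℤ, ρ₀ ≤ |(p : ℝ) ^ t * γ - b / r|)
      · rw [if_pos hnear]
        obtain ⟨⟨x, hx, hx1⟩, -⟩ := hnear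
        rw [if_pos ⟨x, hx, hx1.trans (min_le_right _ _)⟩]
        exact div_le_div₀ zero_le_one le_rfl h40 hpj.le
      · rw [if_neg hnear]
        refine div_nonneg ?_ h40.le
        split_ifs <;> norm_num
    refine h2.trans ?_
    rw [div_le_iff₀ h40]
    refine h1.trans (le_of_eq ?_)
    ring

end Pool.Agent.Lib.MP_3e612f_nt.NF
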