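import Pool.Agent.Lib.MP_3e612f_nt.NF.O.Defs
import Pool.Agent.Lib.MP_3e612f_nt.NF.U.Cheb

/-! Choice of the blocks of primes. -/

set_option autoImplicit false

namespace Pool.Agent.Lib.MP_3e612f_nt.NF

open Finset
open Pool.Agent.Lib.MP_3e612f_nt.MR (mu ex)

/-- `cheb_low`: `L_j = ∑_{PB j} 1/p ≥ c/j`, the sum over `j` diverges; `wt p = 1/(p L_j) ≤ j/(c 4^j) → 0`. -/
theorem exists_blocks (j' : ℕ) (A w : ℝ) (hw : 0 < w) : ∃ j₀ j₁ : ℕ, j' ≤ j₀ ∧ A ≤ ∑ j ∈ Ico j₀ j₁, ∑ p ∈ PB j, 1 / (p : ℝ) ∧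
    ∀ j ∈ Ico j₀ j₁, 0 < ∑ p ∈ PB j, 1 / (p : ℝ) ∧ ∀ p ∈ PB j, wt (PB j) p ≤ w := by
  obtain ⟨c, hc, jc, hlow⟩ := cheb_low
  have hlim : Filter.Tendsto (fun n : ℕ => ((n : ℝ) ^ 1 / (4 : ℝ) ^ n)) Filter.atTop (nhds 0) :=
    tendsto_pow_const_div_const_pow_of_one_lt 1 (by norm_num)
  have hev : ∀ᶠ n : ℕ in Filter.atTop, (n : ℝ) ^ 1 / (4 : ℝ) ^ n < c * w :=
    hlim.eventually_lt_const (by positivity)
  obtain ⟨N, hN⟩ := Filter.eventually_atTop.1 hev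
  obtain ⟨j₀, hj0, hj1, hj2, hj3⟩ : ∃ j₀ : ℕ, j' ≤ j₀ ∧ jc ≤ j₀ ∧ N ≤ j₀ ∧ 1 ≤ j₀ :=
    ⟨j' + jc + N + 1, by omega, by omega, by omega, by omega⟩
  have hdiv := Real.tendsto_sum_range_one_div_nat_succ_atTop
  obtain ⟨n, hn⟩ := (hdiv.eventually_ge_atTop
    (A / c + ∑ i ∈ range j₀, 1 / ((i : ℝ) + 1))).exists
  have hpos : ∀ j, j₀ ≤ j → 0 < c / (j : ℝ) := by
    intro j hj
    have : (0 : ℝ) < j := by exact_mod_cast (show 0 < j by omega)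
    positivity
  have hL : ∀ j, j₀ ≤ j → c / (j : ℝ) ≤ ∑ p ∈ PB j, 1 / (p : ℝ) := fun j hj => hlow j (by omega)
  refine ⟨j₀, max j₀ n, hj0, ?_, ?_⟩
  · have h1 : ∑ i ∈ range (max j₀ n), 1 / ((i : ℝ) + 1) =
        ∑ i ∈ range j₀, 1 / ((i : ℝ) + 1) + ∑ i ∈ Ico j₀ (max j₀ n), 1 / ((i : ℝ) + 1) :=
      (Finset.sum_range_add_sum_Ico _ (le_max_left j₀ n)).symm
    have h2 : ∑ i ∈ range n, 1 / ((i : ℝ) + 1) ≤ ∑ i ∈ range (max j₀ n), 1 / ((i : ℝ) + 1) := by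
      refine Finset.sum_le_sum_of_subset_of_nonneg ?_ (fun i _ _ => by positivity)
      exact Finset.range_mono (le_max_right j₀ n)
    have h3 : A / c ≤ ∑ i ∈ Ico j₀ (max j₀ n), 1 / ((i : ℝ) + 1) := by linarith
    rw [div_le_iff₀ hc, Finset.sum_mul] at h3
    refine h3.trans (Finset.sum_le_sum fun i hi => ?_)
    rw [mem_Ico] at hi
    refine le_trans ?_ (hL i hi.1)
    have hi0 : (0 : ℝ) < i := by exact_mod_cast (show 0 < i by omega)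
    rw [div_mul_eq_mul_div, one_mul]
    exact div_le_div_of_nonneg_left hc.le hi0 (by linarith)
  · intro j hj
    rw [mem_Ico] at hj
    have hj' : (0 : ℝ) < j := by exact_mod_cast (show 0 < j by omega)
    have h1 := hL j hj.1
    have h2 := hpos j hj.1
    refine ⟨h2.trans_le h1, fun p hp => ?_⟩
    have h3 := hN j (by omega)
    rw [pow_one, div_lt_iff₀ (by positivity)] at h3
    have h4 : ((4 : ℝ) ^ j) ≤ p := by exact_mod_cast (PB_low hp).le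
    have h5 : (4 : ℝ) ^ j * (c / j) ≤ (p : ℝ) * ∑ q ∈ PB j, 1 / (q : ℝ) :=
      mul_le_mul h4 h1 h2.le (by positivity)
    have h6 : 1 / w ≤ (4 : ℝ) ^ j * (c / j) := by
      rw [div_le_iff₀ hw, mul_div_assoc', div_mul_eq_mul_div, le_div_iff₀ hj']
      linarith
    unfold wt
    rw [div_le_iff₀ (lt_of_lt_of_le (by positivity) (h6.trans h5))]
    have h7 := h6.trans h5
    rw [div_le_iff₀ hw] at h7
    linarith

end Pool.Agent.Lib.MP_3e612f_nt.NF
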