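import Pool.Agent.Lib.MP_3e612f_nt.NF.K.Kat

/-! Blocks of primes. -/

set_option autoImplicit false

namespace Pool.Agent.Lib.MP_3e612f_nt.NF

open Finset
open Pool.Agent.Lib.MP_3e612f_nt.MR (mu ex)

/-- the primes in `(4^j, 4^(j+1)]` -/
def PB (j : ℕ) : Finset ℕ := (Ioc (4 ^ j : ℕ) (4 ^ (j + 1))).filter Nat.Prime

theorem PB_prime {j p : ℕ} (h : p ∈ PB j) : p.Prime := (mem_filter.1 h).2

theorem PB_low {j p : ℕ} (h : p ∈ PB j) : 4 ^ j < p := (mem_Ioc.1 (mem_filter.1 h).1).1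

theorem PB_up {j p : ℕ} (h : p ∈ PB j) : p ≤ 4 ^ (j + 1) := (mem_Ioc.1 (mem_filter.1 h).1).2

end Pool.Agent.Lib.MP_3e612f_nt.NF
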