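import Pool.Agent.Lib.MP_3e612f_nt.NF.O.LipMaj
import Pool.Agent.Lib.MP_3e612f_nt.NF.O.AvgExc
import Pool.Agent.Lib.MP_3e612f_nt.NF.O.Defs
import Pool.Agent.Lib.MP_3e612f_nt.NF.U.LocBT

/-! The exceptional case of the block estimate. -/

set_option autoImplicit false

namespace Pool.Agent.Lib.MP_3e612f_nt.NF

open Finset
open Pool.Agent.Lib.MP_3e612f_nt.MR (mu ex)

open scoped Classical in
/-- `loc_bt` with `T = g` of `exists_lip_maj`, `X = 4^j`, `c₀ = δ' := δ/(C_bt + 1)` (`X/log X ≤ 4^j/j`). `avg_exc` with `ρ₀/4^t`, `C₁`, `δ'`: the integral of `g` is small enough by `exists_lip_maj`. `M ≥ M₀` so large that also `Lip C₁ t 8^{t-1} 4/M ≤ δ'`; `ℓ = ⌈3X/M⌉` (`j` large: `ℓ M ≤ 3X + M ≤ 4X`, `X ≤ ℓ²`, `r^16 ≤ X`). The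
sum over the classes `u` of the `avg_exc` for `τ = b u^t/r` is the hypothesis of `loc_bt` (the number of classes is `φ(r)`). `1 ≤ g(p^t (b/r + θ))` if the point is within `ρ` of `C`. -/
theorem exc (t : ℕ) (ht : 1 ≤ t) (C : Set ℝ) (hC : IsClosed C) (hper : ∀ x ∈ C, ∀ z : ℤ, x + z ∈ C) (h0 : MeasureTheory.volume C = 0)
    (r₀ : ℕ) (ρ₀ C₁ δ : ℝ) (hρ₀ : 0 < ρ₀) (hC₁ : 0 < C₁) (hδ : 0 < δ) :
    ∃ ρ : ℝ, 0 < ρ ∧ ∃ j₀ : ℕ, ∀ j : ℕ, j₀ ≤ j → ∀ (b : ℤ) (r : ℕ) (θ : ℝ), 1 ≤ r → r < r₀ → ρ₀ ≤ |θ| * ((4 : ℝ) ^ (j + 1)) ^ t → |θ| * ((4 : ℝ) ^ j) ^ t ≤ C₁ →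
      ∑ p ∈ PB j, (if ∃ x ∈ C, |(p : ℝ) ^ t * (b / r + θ) - x| ≤ ρ then (1 : ℝ) else 0) ≤ δ * ((4 : ℝ) ^ j / j) := by
  obtain ⟨Cb, hCb, X₀, hbt⟩ := loc_bt t ht
  set c₀ : ℝ := δ / Cb with hc₀def
  have hc₀ : 0 < c₀ := div_pos hδ hCb
  set ρ' : ℝ := ρ₀ / 4 ^ t with hρ'def
  have hρ' : 0 < ρ' := by positivity
  have ht0 : (0 : ℝ) < t := by exact_mod_cast ht
  obtain ⟨g, Lip, ρ, hρ, hLip1, hg0, hgper, hgLip, hgint, hgC⟩ :=
    exists_lip_maj C hC hper h0 (3 * t * ρ' * c₀ / (5 ^ t * C₁ + 1)) (by positivity)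
  have hint : (5 ^ t * C₁ + 1) * ∫ x in (0 : ℝ)..1, g x ≤ 3 * t * ρ' * c₀ := by
    have h1 : (0 : ℝ) < 5 ^ t * C₁ + 1 := by positivity
    rw [le_div_iff₀ h1] at hgint
    linarith
  obtain ⟨M₀, hM₀⟩ := avg_exc t ht g Lip hg0 hgper hgLip ρ' C₁ c₀ hρ' hC₁ hc₀ hint
  obtain ⟨M₁, hM₁⟩ := exists_nat_ge (4 * Lip * t * 8 ^ (t - 1) * C₁ / c₀)
  set M : ℕ := max (max M₀ M₁) 1 with hMdef
  have hMM₀ : M₀ ≤ M := (le_max_left _ _).trans (le_max_left _ _)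
  have hMM₁ : M₁ ≤ M := (le_max_right _ _).trans (le_max_left _ _)
  have hM1 : 1 ≤ M := le_max_right _ _
  refine ⟨ρ, hρ, max (max X₀ (M ^ 2)) (max (r₀ ^ 16) 1), ?_⟩
  intro j hj b r θ hr hrr₀ hθ1 hθ2
  have hj4 : j ≤ 4 ^ j := (Nat.lt_pow_self (by norm_num)).le
  obtain ⟨X, hX⟩ : ∃ X : ℕ, X = 4 ^ j := ⟨_, rfl⟩
  rw [← hX] at hj4
  have hjX₀ : X₀ ≤ j := ((le_max_left _ _).trans (le_max_left _ _)).trans hj
  have hjM : M ^ 2 ≤ j := ((le_max_right _ _).trans (le_max_left _ _)).trans hj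
  have hjr : r₀ ^ 16 ≤ j := ((le_max_left _ _).trans (le_max_right _ _)).trans hj
  have hj1 : 1 ≤ j := ((le_max_right _ _).trans (le_max_right _ _)).trans hj
  have hX1 : 1 ≤ X := hj1.trans hj4
  have hXR : (X : ℝ) = 4 ^ j := by rw [hX]; push_cast; rfl
  have hMX : M ≤ X := (Nat.le_self_pow (by norm_num) M).trans (hjM.trans hj4)
  -- the length of the intervals
  obtain ⟨ℓ, hℓ⟩ : ∃ ℓ : ℕ, ℓ = (3 * X + M - 1) / M := ⟨_, rfl⟩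
  have hℓ1 : ℓ * M ≤ 3 * X + M - 1 := by
    rw [hℓ]
    exact Nat.div_mul_le_self _ _
  have hℓ2 : 3 * X ≤ ℓ * M := by
    have h1 := Nat.lt_mul_div_succ (3 * X + M - 1) (show 0 < M by omega)
    rw [← hℓ] at h1
    have h2 : M * (ℓ + 1) = ℓ * M + M := by ring
    omega
  have hℓ3 : ℓ * M ≤ 4 * X := by omega
  have hXℓ : X ≤ ℓ ^ 2 := by
    have h1 : (3 * X) ^ 2 ≤ (ℓ * M) ^ 2 := Nat.pow_le_pow_left hℓ2 2
    have h2 : M ^ 2 ≤ X := hjM.trans hj4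
    have h3 : 0 < M ^ 2 := by positivity
    have h4 : X * M ^ 2 ≤ ℓ ^ 2 * M ^ 2 := by
      calc X * M ^ 2 ≤ X * X := Nat.mul_le_mul_left _ h2
        _ ≤ (3 * X) ^ 2 := by nlinarith
        _ ≤ (ℓ * M) ^ 2 := h1
        _ = ℓ ^ 2 * M ^ 2 := by ring
    exact Nat.le_of_mul_le_mul_right h4 h3
  have hr16 : r ^ 16 ≤ X := (Nat.pow_le_pow_left hrr₀.le 16).trans (hjr.trans hj4)
  -- the bounds for the argument
  have hθX1 : ρ' ≤ |θ| * (X : ℝ) ^ t := by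
    rw [hρ'def, div_le_iff₀ (by positivity), hXR]
    calc ρ₀ ≤ |θ| * ((4 : ℝ) ^ (j + 1)) ^ t := hθ1
      _ = |θ| * ((4 : ℝ) ^ j) ^ t * 4 ^ t := by rw [pow_succ, mul_pow]; ring
  have hθX2 : |θ| * (X : ℝ) ^ t ≤ C₁ := by rw [hXR]; exact hθ2
  have hLipθ : Lip * (|θ| * (t * ℓ * (8 * (X : ℝ)) ^ (t - 1))) ≤ c₀ := by
    have hMR : (0 : ℝ) < M := by exact_mod_cast (by omega : 0 < M)
    have h1 : (ℓ : ℝ) * M ≤ 4 * X := by exact_mod_cast hℓ3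
    have h2 : (ℓ : ℝ) ≤ 4 * X / M := by rw [le_div_iff₀ hMR]; exact h1
    have h3 : 4 * Lip * t * 8 ^ (t - 1) * C₁ / c₀ ≤ M := hM₁.trans (by exact_mod_cast hMM₁)
    have h4 : 4 * Lip * t * 8 ^ (t - 1) * C₁ ≤ c₀ * M := by
      rw [div_le_iff₀ hc₀] at h3
      linarith
    have hLip0 : 0 ≤ Lip := zero_le_one.trans hLip1
    have h5 : (X : ℝ) ^ t = X * (X : ℝ) ^ (t - 1) := by
      rw [← pow_succ']
      congr 1
      omega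
    calc Lip * (|θ| * (t * ℓ * (8 * (X : ℝ)) ^ (t - 1)))
        ≤ Lip * (|θ| * (t * (4 * X / M) * (8 * (X : ℝ)) ^ (t - 1))) := by gcongr
      _ = (4 * Lip * t * 8 ^ (t - 1) * (|θ| * (X : ℝ) ^ t)) / M := by
          rw [h5, mul_pow]
          ring
      _ ≤ (4 * Lip * t * 8 ^ (t - 1) * C₁) / M := by gcongr
      _ ≤ c₀ := by
          rw [div_le_iff₀ hMR]
          exact h4
  -- the sum over the classes and the intervals
  have hφ : #((range r).filter (fun u => Nat.Coprime u r)) = r.totient := by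
    rw [Nat.totient]
    congr 1
    ext u
    simp only [mem_filter, Nat.coprime_comm]
  have hsum : ∑ i ∈ range M, ∑ u ∈ (range r).filter (fun u => Nat.Coprime u r),
      g (b * (u : ℝ) ^ t / r + θ * ((X : ℝ) + i * ℓ) ^ t) ≤ 2 * c₀ * (M * r.totient) := by
    rw [Finset.sum_comm]
    have h1 : ∀ u ∈ (range r).filter (fun u => Nat.Coprime u r),
        ∑ i ∈ range M, g (b * (u : ℝ) ^ t / r + θ * ((X : ℝ) + i * ℓ) ^ t) ≤ 2 * c₀ * M :=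
      fun u _ => hM₀ M hMM₀ X ℓ θ _ hX1 hℓ2 hℓ3 hθX1 hθX2
    refine (Finset.sum_le_sum h1).trans ?_
    rw [Finset.sum_const, hφ, nsmul_eq_mul]
    apply le_of_eq
    ring
  have hfin := hbt X (hjX₀.trans hj4) g Lip c₀ hg0 hgper hgLip hc₀ b r ℓ M θ hr hr16 hXℓ hℓ2 hℓ3
    hLipθ hsum
  have hPB : PB j = (Ioc X (4 * X)).filter Nat.Prime := by
    rw [PB, hX, pow_succ, mul_comm (4 ^ j) 4]
  have hjR : (0 : ℝ) < j := by exact_mod_cast hj1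
  have hlog : (X : ℝ) / Real.log X ≤ (4 : ℝ) ^ j / j := by
    rw [hXR, Real.log_pow]
    apply div_le_div_of_nonneg_left (by positivity) hjR
    have h1 : (1 : ℝ) ≤ Real.log 4 := by
      rw [Real.le_log_iff_exp_le (by norm_num)]
      exact (Real.exp_one_lt_d9.le).trans (by norm_num)
    nlinarith
  calc ∑ p ∈ PB j, (if ∃ x ∈ C, |(p : ℝ) ^ t * (b / r + θ) - x| ≤ ρ then (1 : ℝ) else 0)
      ≤ ∑ p ∈ PB j, g ((p : ℝ) ^ t * (b / r + θ)) := by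
        apply Finset.sum_le_sum
        intro p _
        split_ifs with h
        · exact hgC _ h
        · exact hg0 _
    _ ≤ Cb * c₀ * (X / Real.log X) := by rw [hPB]; exact hfin
    _ = δ * (X / Real.log X) := by
        rw [hc₀def, mul_div_cancel₀ δ hCb.ne']
    _ ≤ δ * ((4 : ℝ) ^ j / j) := mul_le_mul_of_nonneg_left hlog hδ.le

end Pool.Agent.Lib.MP_3e612f_nt.NF
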