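import Pool.Agent.Lib.MP_3e612f_nt.NF.O.TKo

/-! The method of Katai in one block of primes, ordinary averages. -/

set_option autoImplicit false

namespace Pool.Agent.Lib.MP_3e612f_nt.NF

open Finset
open Pool.Agent.Lib.MP_3e612f_nt.MR (mu ex)

/-- One prime: the sum over the multiples of `p` is the dilated sum, up to the `k` divisible by `p` (`mu_mul_prime`, `mu_mul_prime_dvd`): `#{k ≤ N/p : p ∣ k} ≤ N/p²`. -/
theorem dil_o (p : ℕ) (hp : p.Prime) (Ψ : ℕ → ℂ) (hΨ : ∀ n, ‖Ψ n‖ ≤ 1) (N : ℕ) :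
    ‖∑ m ∈ Icc 1 N, (if p ∣ m then (mu m : ℂ) * Ψ m else 0) + ∑ k ∈ Icc 1 (N / p), (mu k : ℂ) * Ψ (p * k)‖ ≤ N / (p : ℝ) ^ 2 := by
  have hp1 : 1 ≤ p := hp.one_le
  rw [sum_dvd_Icc _ p N hp1, ← sum_add_distrib]
  have h1 : ∀ k ∈ Icc 1 (N / p), ‖(mu (p * k) : ℂ) * Ψ (p * k) + (mu k : ℂ) * Ψ (p * k)‖ ≤ (if p ∣ k then (1 : ℝ) else 0) := by
    intro k _
    by_cases hk : p ∣ k
    · rw [if_pos hk, mu_mul_prime_dvd p k hp hk, Complex.ofReal_zero, zero_mul, zero_add, norm_mul]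
      exact mul_le_one₀ (norm_mu_le_one k) (norm_nonneg _) (hΨ _)
    · rw [if_neg hk, mu_mul_prime p k hp hk]
      simp
  refine (norm_sum_le _ _).trans ((sum_le_sum h1).trans ?_)
  rw [sum_dvd_Icc (fun _ => (1 : ℝ)) p (N / p) hp1, sum_const, Nat.card_Icc, Nat.add_sub_cancel, nsmul_eq_mul, mul_one]
  have h2 : N / p / p = N / (p ^ 2) := by
    rw [Nat.div_div_eq_div_mul, sq]
  rw [h2]
  have h3 : ((N / (p ^ 2) : ℕ) : ℝ) ≤ (N : ℝ) / ((p ^ 2 : ℕ) : ℝ) := Nat.cast_div_le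
  push_cast at h3
  exact h3

private theorem kat_block (e : ℝ) (he : 0 < e) (j N : ℕ) (hN : 1 ≤ N) (Ψ : ℕ → ℂ) (hΨ : ∀ n, ‖Ψ n‖ ≤ 1)
    (hpos : 0 < ∑ p ∈ PB j, 1 / (p : ℝ)) (hw : ∀ p ∈ PB j, wt (PB j) p ≤ e ^ 2 / 128)
    (hU : e / 2 * (N * ∑ p ∈ PB j, 1 / (p : ℝ)) ≤ ‖∑ p ∈ PB j, ∑ k ∈ Icc 1 (N / p), (mu k : ℂ) * Ψ (p * k)‖) :
    e ^ 2 / 128 * (N / (4 : ℝ) ^ j) ≤ ∑ p ∈ PB j, ∑ q ∈ PB j, wt (PB j) p * wt (PB j) q *
        (if p ≠ q then ‖∑ k ∈ Icc 1 (N / max p q), Ψ (p * k) * (starRingEnd ℂ) (Ψ (q * k))‖ else 0) := by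
  set P : Finset ℕ := PB j with hPdef
  set L : ℝ := ∑ p ∈ P, 1 / (p : ℝ) with hLdef
  set Y : ℝ := N / (4 : ℝ) ^ j with hY
  set M : ℕ := N / 4 ^ j with hM
  have hN0 : (0 : ℝ) < N := by exact_mod_cast hN
  have h4 : (0 : ℝ) < 4 ^ j := by positivity
  have hY0 : 0 < Y := by positivity
  have hMY : (M : ℝ) ≤ Y := by
    have h := Nat.cast_div_le (α := ℝ) (m := N) (n := 4 ^ j)
    rw [← hM] at h
    push_cast at h
    exact h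
  have hplow : ∀ p ∈ P, 4 ^ j ≤ p := fun p hp => (PB_low hp).le
  have hppos : ∀ p ∈ P, 1 ≤ p := fun p hp => (PB_prime hp).one_le
  have hpM : ∀ p ∈ P, N / p ≤ M := fun p hp => Nat.div_le_div_left (hplow p hp) (by positivity)
  set D : ℕ → ℕ → ℂ := fun p q => ∑ k ∈ Icc 1 (N / max p q), Ψ (p * k) * (starRingEnd ℂ) (Ψ (q * k)) with hD
  set Φ : ℕ → ℂ := fun k => ∑ p ∈ P, (if p * k ≤ N then Ψ (p * k) else 0) with hΦ
  -- restricted sums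
  have hres : ∀ (d : ℕ), 1 ≤ d → N / d ≤ M → ∀ f : ℕ → ℂ, ∑ k ∈ Icc 1 (N / d), f k = ∑ k ∈ Icc 1 M, (if d * k ≤ N then f k else 0) := by
    intro d hd hdM f
    rw [← sum_filter]
    refine sum_congr ?_ fun _ _ => rfl
    ext k
    rw [mem_filter, mem_Icc, mem_Icc, Nat.le_div_iff_mul_le (by omega), mul_comm k d]
    constructor
    · rintro ⟨h1, h2⟩
      refine ⟨⟨h1, ?_⟩, h2⟩
      refine le_trans ?_ hdM
      rw [Nat.le_div_iff_mul_le (by omega), mul_comm]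
      exact h2
    · rintro ⟨⟨h1, -⟩, h2⟩
      exact ⟨h1, h2⟩
  have hUΦ : ∑ p ∈ P, ∑ k ∈ Icc 1 (N / p), (mu k : ℂ) * Ψ (p * k) = ∑ k ∈ Icc 1 M, (mu k : ℂ) * Φ k := by
    have h1 : ∀ p ∈ P, ∑ k ∈ Icc 1 (N / p), (mu k : ℂ) * Ψ (p * k) = ∑ k ∈ Icc 1 M, (mu k : ℂ) * (if p * k ≤ N then Ψ (p * k) else 0) := by
      intro p hp
      rw [hres p (hppos p hp) (hpM p hp)]
      refine sum_congr rfl fun k _ => ?_
      split_ifs <;> simp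
    rw [sum_congr rfl h1, sum_comm]
    refine sum_congr rfl fun k _ => ?_
    rw [hΦ, ← mul_sum]
  -- Cauchy - Schwarz
  have hCS : ‖∑ k ∈ Icc 1 M, (mu k : ℂ) * Φ k‖ ^ 2 ≤ M * ∑ k ∈ Icc 1 M, ‖Φ k‖ ^ 2 := by
    have h1 : ‖∑ k ∈ Icc 1 M, (mu k : ℂ) * Φ k‖ ≤ ∑ k ∈ Icc 1 M, ‖Φ k‖ := by
      refine (norm_sum_le _ _).trans (sum_le_sum fun k _ => ?_)
      rw [norm_mul]
      exact mul_le_of_le_one_left (norm_nonneg _) (norm_mu_le_one k)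
    have h2 : (∑ k ∈ Icc 1 M, ‖Φ k‖) ^ 2 ≤ (#(Icc 1 M) : ℝ) * ∑ k ∈ Icc 1 M, ‖Φ k‖ ^ 2 := sq_sum_le_card_mul_sum_sq
    rw [Nat.card_Icc, Nat.add_sub_cancel] at h2
    refine le_trans ?_ h2
    exact pow_le_pow_left₀ (norm_nonneg _) h1 2
  -- expanding the square
  have hexp : ((∑ k ∈ Icc 1 M, ‖Φ k‖ ^ 2 : ℝ) : ℂ) = ∑ p ∈ P, ∑ q ∈ P, D p q := by
    have h7 : ∀ k ∈ Icc 1 M, ((‖Φ k‖ ^ 2 : ℝ) : ℂ) = ∑ p ∈ P, ∑ q ∈ P, (if max p q * k ≤ N then Ψ (p * k) * (starRingEnd ℂ) (Ψ (q * k)) else 0) := by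
      intro k _
      have h8 : ((‖Φ k‖ ^ 2 : ℝ) : ℂ) = Φ k * (starRingEnd ℂ) (Φ k) := by
        rw [Complex.mul_conj, Complex.normSq_eq_norm_sq]
      rw [h8, hΦ]
      dsimp only
      rw [map_sum, sum_mul_sum]
      refine sum_congr rfl fun p _ => sum_congr rfl fun q _ => ?_
      have h9 : max p q * k ≤ N ↔ (p * k ≤ N ∧ q * k ≤ N) := by
        rw [max_mul_of_nonneg p q (Nat.zero_le k), max_le_iff]
      by_cases h10 : p * k ≤ N <;> by_cases h11 : q * k ≤ N <;> simp only [h9, h10, h11, and_self, and_true, and_false, if_true, if_false, map_zero, mul_zero, zero_mul]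
    rw [Complex.ofReal_sum, sum_congr rfl h7, sum_comm]
    refine sum_congr rfl fun p hp => ?_
    rw [sum_comm]
    refine sum_congr rfl fun q hq => ?_
    rw [hD]
    dsimp only
    rw [hres (max p q) ((hppos p hp).trans (le_max_left _ _)) ?_]
    exact Nat.div_le_div_left ((hplow p hp).trans (le_max_left _ _)) (by positivity)
  have hsq : ∑ k ∈ Icc 1 M, ‖Φ k‖ ^ 2 ≤ ∑ p ∈ P, ∑ q ∈ P, ‖D p q‖ := by
    have h8 : ∑ k ∈ Icc 1 M, ‖Φ k‖ ^ 2 ≤ ‖((∑ k ∈ Icc 1 M, ‖Φ k‖ ^ 2 : ℝ) : ℂ)‖ := by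
      rw [Complex.norm_real]
      exact le_abs_self _
    refine h8.trans ?_
    rw [hexp]
    exact (norm_sum_le _ _).trans (sum_le_sum fun p _ => norm_sum_le _ _)
  -- the lower bound of the weights
  set w₀ : ℝ := 1 / (4 * 4 ^ j * L) with hw₀
  have hw₀0 : 0 < w₀ := by positivity
  have hwlow : ∀ p ∈ P, w₀ ≤ wt P p := by
    intro p hp
    unfold wt
    rw [← hLdef, hw₀]
    have h1 : (0 : ℝ) < p := by exact_mod_cast hppos p hp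
    have h2 : (p : ℝ) ≤ 4 * 4 ^ j := by
      have h3 : p ≤ 4 ^ (j + 1) := PB_up hp
      have h4 : ((p : ℕ) : ℝ) ≤ ((4 ^ (j + 1) : ℕ) : ℝ) := by exact_mod_cast h3
      push_cast at h4
      rw [pow_succ] at h4
      linarith
    exact one_div_le_one_div_of_le (by positivity) (mul_le_mul_of_nonneg_right h2 hpos.le)
  have hW : w₀ ^ 2 * ∑ p ∈ P, ∑ q ∈ P, ‖D p q‖ ≤ ∑ p ∈ P, ∑ q ∈ P, wt P p * wt P q * ‖D p q‖ := by
    rw [mul_sum]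
    refine sum_le_sum fun p hp => ?_
    rw [mul_sum]
    refine sum_le_sum fun q hq => ?_
    refine mul_le_mul_of_nonneg_right ?_ (norm_nonneg _)
    rw [sq]
    exact mul_le_mul (hwlow p hp) (hwlow q hq) hw₀0.le (wt_nonneg _ _)
  -- the diagonal
  have hdiag : ∑ p ∈ P, ∑ q ∈ P, wt P p * wt P q * ‖D p q‖ ≤ ∑ p ∈ P, ∑ q ∈ P, wt P p * wt P q * (if p ≠ q then ‖D p q‖ else 0) + e ^ 2 / 128 * Y := by
    have h9 : ∀ p ∈ P, ∑ q ∈ P, wt P p * wt P q * ‖D p q‖ ≤ ∑ q ∈ P, wt P p * wt P q * (if p ≠ q then ‖D p q‖ else 0) + wt P p * (e ^ 2 / 128 * Y) := by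
      intro p hp
      have h10 : ∀ q ∈ P, wt P p * wt P q * ‖D p q‖ = wt P p * wt P q * (if p ≠ q then ‖D p q‖ else 0) + (if p = q then wt P p * wt P q * ‖D p q‖ else 0) := by
        intro q _
        by_cases hpq : p = q <;> simp [hpq]
      rw [sum_congr rfl h10, sum_add_distrib, sum_ite_eq, if_pos hp]
      refine add_le_add le_rfl ?_
      rw [mul_assoc]
      refine mul_le_mul_of_nonneg_left ?_ (wt_nonneg _ _)
      have h11 : ‖D p p‖ ≤ Y := by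
        rw [hD]
        dsimp only
        refine (norm_sum_le _ _).trans ?_
        have h12 : ∀ k ∈ Icc 1 (N / max p p), ‖Ψ (p * k) * (starRingEnd ℂ) (Ψ (p * k))‖ ≤ 1 := by
          intro k _
          rw [norm_mul, RCLike.norm_conj]
          exact mul_le_one₀ (hΨ _) (norm_nonneg _) (hΨ _)
        refine (sum_le_sum h12).trans ?_
        rw [sum_const, Nat.card_Icc, Nat.add_sub_cancel, nsmul_eq_mul, mul_one, max_self]
        have h13 : ((N / p : ℕ) : ℝ) ≤ (M : ℝ) := by exact_mod_cast hpM p hp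
        linarith
      exact mul_le_mul (hw p hp) h11 (norm_nonneg _) (by positivity)
    refine (sum_le_sum h9).trans ?_
    rw [sum_add_distrib, ← sum_mul, sum_wt P hpos, one_mul]
  -- conclusion
  rw [hUΦ] at hU
  have h1 : (e / 2 * (N * L)) ^ 2 ≤ Y * ∑ p ∈ P, ∑ q ∈ P, ‖D p q‖ := by
    refine (pow_le_pow_left₀ (by positivity) hU 2).trans (hCS.trans ?_)
    exact mul_le_mul hMY hsq (sum_nonneg fun _ _ => sq_nonneg _) hY0.le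
  have h2 : w₀ ^ 2 * ((e / 2 * (N * L)) ^ 2) ≤ Y * (w₀ ^ 2 * ∑ p ∈ P, ∑ q ∈ P, ‖D p q‖) := by
    have h3 := mul_le_mul_of_nonneg_left h1 (sq_nonneg w₀)
    refine h3.trans (le_of_eq ?_)
    ring
  have h3 : w₀ ^ 2 * ((e / 2 * (N * L)) ^ 2) = Y * (e ^ 2 / 64 * Y) := by
    rw [hw₀, hY]
    field_simp
    ring
  rw [h3] at h2
  have h5 := le_of_mul_le_mul_left h2 hY0
  have h6 := h5.trans (hW.trans hdiag)
  linarith

/-- Katai in one block. `P = ⋃ PB j`, `L = ∑_P 1/p`, `S = ∑ μ(m) Ψ(m)`, `T = ∑_{p ∈ P} ∑_{p ∣ m ≤ N} μ(m) Ψ(m)`, `U = ∑_p ∑_{k ≤ N/p} μ(k) Ψ(pk)`. `|L S - T| ≤ √(N (L N + 3 #P²)) ≤ e L N/4` (`tk_o`, `L ≥ 100/e²`, `N` large), `|T + U| ≤ N ∑ 1/p² ≤ N ≤ e L N/100`: `|U| > (e/2) L N`, so for some `j`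
`|U_j| ≥ (e/2) N L_j`. `U_j = ∑_{k ≤ N/4^j} μ(k) Φ(k)`, `Φ(k) = ∑_{p ∈ PB j, pk ≤ N} Ψ(pk)`; Cauchy - Schwarz: `(e²/4) N² L_j² ≤ (N/4^j) ∑_{p,q} D_{pq}`, `D_{pq} = |∑_{k ≤ N/max(p,q)} Ψ(pk) conj Ψ(qk)|`; `wt p ≥ 1/(4^{j+1} L_j)`: `∑ wt wt D ≥ (e²/64) N/4^j`;
the diagonal is at most `(max wt) N/4^j ≤ (e²/128) N/4^j`. -/
theorem kat_o (e : ℝ) (he : 0 < e) (he1 : e ≤ 1) (j₀ j₁ : ℕ) (hL : 100 / e ^ 2 ≤ ∑ j ∈ Ico j₀ j₁, ∑ p ∈ PB j, 1 / (p : ℝ))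
    (hpos : ∀ j ∈ Ico j₀ j₁, 0 < ∑ p ∈ PB j, 1 / (p : ℝ)) (hw : ∀ j ∈ Ico j₀ j₁, ∀ p ∈ PB j, wt (PB j) p ≤ e ^ 2 / 128) :
    ∃ N₀ : ℕ, ∀ N : ℕ, N₀ ≤ N → ∀ Ψ : ℕ → ℂ, (∀ n, ‖Ψ n‖ ≤ 1) → e * N ≤ ‖∑ m ∈ Icc 1 N, (mu m : ℂ) * Ψ m‖ →
      ∃ j ∈ Ico j₀ j₁, e ^ 2 / 128 * (N / (4 : ℝ) ^ j) ≤ ∑ p ∈ PB j, ∑ q ∈ PB j, wt (PB j) p * wt (PB j) q *
        (if p ≠ q then ‖∑ k ∈ Icc 1 (N / max p q), Ψ (p * k) * (starRingEnd ℂ) (Ψ (q * k))‖ else 0) := by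
  classical
  set P : Finset ℕ := (Ico j₀ j₁).biUnion PB with hPdef
  have hdis : ((Ico j₀ j₁ : Finset ℕ) : Set ℕ).PairwiseDisjoint PB := by
    intro i _ j _ hij
    rw [Function.onFun, disjoint_left]
    intro p hpi hpj
    have hi1 := PB_low hpi
    have hi2 := PB_up hpi
    have hj1 := PB_low hpj
    have hj2 := PB_up hpj
    rcases lt_or_gt_of_ne hij with h | h
    · have h1 : 4 ^ (i + 1) ≤ 4 ^ j := Nat.pow_le_pow_right (by norm_num) h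
      omega
    · have h1 : 4 ^ (j + 1) ≤ 4 ^ i := Nat.pow_le_pow_right (by norm_num) h
      omega
  have hP : ∀ p ∈ P, p.Prime := by
    intro p hp
    rw [hPdef, mem_biUnion] at hp
    obtain ⟨j, _, hj⟩ := hp
    exact PB_prime hj
  set L : ℝ := ∑ j ∈ Ico j₀ j₁, ∑ p ∈ PB j, 1 / (p : ℝ) with hLdef
  have hLP : ∑ p ∈ P, 1 / (p : ℝ) = L := by rw [hPdef, sum_biUnion hdis]
  have hLpos : 0 < L := lt_of_lt_of_le (by positivity) hL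
  have hL' : 100 ≤ e ^ 2 * L := by
    rw [div_le_iff₀ (by positivity)] at hL
    linarith
  have heL : 100 ≤ e * L := by
    have h1 : e ^ 2 * L ≤ e * L := by
      have : e ^ 2 ≤ e := by nlinarith
      exact mul_le_mul_of_nonneg_right this hLpos.le
    linarith
  refine ⟨⌈300 * (#P : ℝ) ^ 2 / (e * L) ^ 2⌉₊ + 1, fun N hN Ψ hΨ hbig => ?_⟩
  have hN1 : 1 ≤ N := by omega
  have hN0 : (0 : ℝ) < N := by exact_mod_cast hN1
  have hNP : 300 * (#P : ℝ) ^ 2 / (e * L) ^ 2 ≤ N := by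
    refine (Nat.le_ceil _).trans ?_
    have : ⌈300 * (#P : ℝ) ^ 2 / (e * L) ^ 2⌉₊ ≤ N := by omega
    exact_mod_cast this
  set S : ℂ := ∑ m ∈ Icc 1 N, (mu m : ℂ) * Ψ m with hS
  set T : ℂ := ∑ p ∈ P, ∑ m ∈ Icc 1 N, (if p ∣ m then (mu m : ℂ) * Ψ m else 0) with hT
  set U : ℂ := ∑ p ∈ P, ∑ k ∈ Icc 1 (N / p), (mu k : ℂ) * Ψ (p * k) with hU
  have hmuΨ : ∀ m, ‖(mu m : ℂ) * Ψ m‖ ≤ 1 := fun m => by
    rw [norm_mul]
    exact mul_le_one₀ (norm_mu_le_one m) (norm_nonneg _) (hΨ _)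
  -- Turan - Kubilius
  have h1 : ‖(L : ℂ) * S - T‖ ≤ 3 / 20 * (e * L * N) := by
    set G : ℕ → ℝ := fun m => ∑ p ∈ P, ((if p ∣ m then 1 else 0) - 1 / (p : ℝ)) with hG
    have h2 : (L : ℂ) * S - T = -∑ m ∈ Icc 1 N, (mu m : ℂ) * Ψ m * (G m : ℂ) := by
      have h3 : ∀ m ∈ Icc 1 N, (mu m : ℂ) * Ψ m * (G m : ℂ) = ∑ p ∈ P, (if p ∣ m then (mu m : ℂ) * Ψ m else 0) - (L : ℂ) * ((mu m : ℂ) * Ψ m) := by
        intro m _
        rw [hG]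
        dsimp only
        rw [sum_sub_distrib, hLP]
        push_cast
        rw [mul_sub, mul_sum]
        congr 1
        · refine sum_congr rfl fun p _ => ?_
          split_ifs <;> simp
        · ring
      rw [sum_congr rfl h3, sum_sub_distrib, sum_comm, ← hT, ← mul_sum, ← hS]
      ring
    rw [h2, norm_neg]
    refine (norm_sum_le _ _).trans ?_
    set s : ℝ := e * L / 10 with hs
    have hs0 : 0 < s := by positivity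
    have h3 : ∀ m ∈ Icc 1 N, ‖(mu m : ℂ) * Ψ m * (G m : ℂ)‖ ≤ s / 2 + 1 / (2 * s) * G m ^ 2 := by
      intro m _
      rw [norm_mul, Complex.norm_real, Real.norm_eq_abs]
      have h4 : ‖(mu m : ℂ) * Ψ m‖ * |G m| ≤ |G m| := mul_le_of_le_one_left (abs_nonneg _) (hmuΨ m)
      refine h4.trans ?_
      have h7 : s / 2 + 1 / (2 * s) * G m ^ 2 - |G m| = (|G m| - s) ^ 2 / (2 * s) := by
        rw [← sq_abs (G m)]
        field_simp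
        ring
      have h8 : 0 ≤ (|G m| - s) ^ 2 / (2 * s) := by positivity
      linarith
    refine (sum_le_sum h3).trans ?_
    rw [sum_add_distrib, sum_const, Nat.card_Icc, Nat.add_sub_cancel, nsmul_eq_mul, ← mul_sum]
    have h4 := tk_o P hP N
    rw [hLP] at h4
    have h5 : 1 / (2 * s) * ∑ m ∈ Icc 1 N, G m ^ 2 ≤ 1 / (2 * s) * (L * N + 3 * (#P : ℝ) ^ 2) := mul_le_mul_of_nonneg_left h4 (by positivity)
    have h6 : 1 / (2 * s) * (L * N + 3 * (#P : ℝ) ^ 2) = 5 * N / e + 15 * (#P : ℝ) ^ 2 / (e * L) := by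
      rw [hs]
      field_simp
      ring
    have h7 : 5 * N / e ≤ 1 / 20 * (e * L * N) := by
      rw [div_le_iff₀ he]
      have : 100 * (N : ℝ) ≤ e ^ 2 * L * N := mul_le_mul_of_nonneg_right hL' hN0.le
      nlinarith
    have h8 : (N : ℝ) * (s / 2) = 1 / 20 * (e * L * N) := by
      rw [hs]
      ring
    have h9 : 15 * (#P : ℝ) ^ 2 / (e * L) ≤ 1 / 20 * (e * L * N) := by
      have h10 : 15 * (#P : ℝ) ^ 2 / (e * L) = 1 / 20 * (e * L * (300 * (#P : ℝ) ^ 2 / (e * L) ^ 2)) := by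
        field_simp
        ring
      rw [h10]
      gcongr
    linarith
  -- dilation
  have h2 : ‖T + U‖ ≤ 1 / 100 * (e * L * N) := by
    have h3 : ‖T + U‖ ≤ N := by
      rw [hT, hU, ← sum_add_distrib]
      refine (norm_sum_le _ _).trans ((sum_le_sum fun p hp => dil_o p (hP p hp) Ψ hΨ N).trans ?_)
      have h4 : ∑ p ∈ P, (N : ℝ) / (p : ℝ) ^ 2 = N * ∑ p ∈ P, 1 / (p : ℝ) ^ 2 := by
        rw [mul_sum]
        exact sum_congr rfl fun p _ => by ring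
      rw [h4]
      exact mul_le_of_le_one_right hN0.le (sum_sq_inv_le P hP)
    have h4 : 100 * (N : ℝ) ≤ e * L * N := mul_le_mul_of_nonneg_right heL hN0.le
    linarith
  have h3 : 84 / 100 * (e * L * N) ≤ ‖U‖ := by
    have h4 : L * ‖S‖ ≤ ‖(L : ℂ) * S - T‖ + ‖T + U‖ + ‖U‖ := by
      have h5 : L * ‖S‖ = ‖(L : ℂ) * S‖ := by
        rw [norm_mul, Complex.norm_real, Real.norm_eq_abs, abs_of_pos hLpos]
      have h6 : (L : ℂ) * S = ((L : ℂ) * S - T) + (T + U) - U := by ring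
      rw [h5]
      conv_lhs => rw [h6]
      exact (norm_sub_le _ _).trans (add_le_add (norm_add_le _ _) le_rfl)
    have h6 : L * (e * N) ≤ L * ‖S‖ := mul_le_mul_of_nonneg_left hbig hLpos.le
    linarith
  have hUj : U = ∑ j ∈ Ico j₀ j₁, ∑ p ∈ PB j, ∑ k ∈ Icc 1 (N / p), (mu k : ℂ) * Ψ (p * k) := by
    rw [hU, hPdef, sum_biUnion hdis]
  obtain ⟨j, hj, hjU⟩ : ∃ j ∈ Ico j₀ j₁, e / 2 * (N * ∑ p ∈ PB j, 1 / (p : ℝ)) ≤ ‖∑ p ∈ PB j, ∑ k ∈ Icc 1 (N / p), (mu k : ℂ) * Ψ (p * k)‖ := by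
    by_contra hcon
    push Not at hcon
    have h4 : ‖U‖ ≤ ∑ j ∈ Ico j₀ j₁, e / 2 * (N * ∑ p ∈ PB j, 1 / (p : ℝ)) := by
      rw [hUj]
      exact (norm_sum_le _ _).trans (sum_le_sum fun j hj => (hcon j hj).le)
    have h5 : ∑ j ∈ Ico j₀ j₁, e / 2 * (N * ∑ p ∈ PB j, 1 / (p : ℝ)) = e / 2 * (N * L) := by
      rw [← mul_sum, ← mul_sum]
    rw [h5] at h4
    have h6 : 0 < e * L * N := by positivity
    nlinarith
  exact ⟨j, hj, kat_block e he j N hN1 Ψ hΨ (hpos j hj) (hw j hj) hjU⟩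

end Pool.Agent.Lib.MP_3e612f_nt.NF
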