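import Pool.Agent.Lib.MP_3e612f_nt.NF.Base

/-! Lipschitz majorants of closed null sets. -/

set_option autoImplicit false

namespace Pool.Agent.Lib.MP_3e612f_nt.NF

open Finset
open Pool.Agent.Lib.MP_3e612f_nt.MR (mu ex)

/-- `g_n x = max 0 (2 - n dist(x, C))` (`C` not empty; otherwise `g = 0`): Lipschitz with constant `n`, periodic, at most 2, `≥ 1` at distance at most `1/n` from `C`; it decreases to `2` on `C` and `0` elsewhere, so the integrals over `[0,1]` tend to `2 vol(C ∩ [0,1]) = 0`. -/
theorem exists_lip_maj (C : Set ℝ) (hC : IsClosed C) (hper : ∀ x ∈ C, ∀ z : ℤ, x + z ∈ C) (h0 : MeasureTheory.volume C = 0) (δ : ℝ) (hδ : 0 < δ) :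
    ∃ (g : ℝ → ℝ) (Lip ρ : ℝ), 0 < ρ ∧ 1 ≤ Lip ∧ (∀ x, 0 ≤ g x) ∧ (∀ x, ∀ z : ℤ, g (x + z) = g x) ∧ (∀ x y, |g x - g y| ≤ Lip * |x - y|) ∧
      ∫ x in (0 : ℝ)..1, g x ≤ δ ∧ ∀ x : ℝ, (∃ y ∈ C, |x - y| ≤ ρ) → 1 ≤ g x := by
  rcases C.eq_empty_or_nonempty with he | hne
  · refine ⟨fun _ => 0, 1, 1, one_pos, le_rfl, fun _ => le_rfl, fun _ _ => rfl, fun x y => ?_, ?_,
      ?_⟩
    · rw [sub_zero, abs_zero, one_mul]
      exact abs_nonneg _
    · rw [intervalIntegral.integral_zero]
      exact hδ.le
    · rintro x ⟨y, hy, -⟩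
      rw [he] at hy
      exact absurd hy (Set.notMem_empty _)
  · obtain ⟨g, hg⟩ : ∃ g : ℕ → ℝ → ℝ, ∀ n x,
        g n x = max (2 - ((n : ℝ) + 1) * Metric.infDist x C) 0 := ⟨_, fun _ _ => rfl⟩
    have hn0 : ∀ n : ℕ, (0 : ℝ) < (n : ℝ) + 1 := fun n => by positivity
    have hinf : ∀ x y : ℝ, |Metric.infDist x C - Metric.infDist y C| ≤ |x - y| := by
      intro x y
      have h1 := (Metric.lipschitz_infDist_pt C).dist_le_mul x y
      rwa [Real.dist_eq, Real.dist_eq, NNReal.coe_one, one_mul] at h1
    have hlip : ∀ n x y, |g n x - g n y| ≤ ((n : ℝ) + 1) * |x - y| := by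
      intro n x y
      rw [hg, hg]
      refine (abs_max_sub_max_le_abs _ _ _).trans ?_
      have h1 : (2 - ((n : ℝ) + 1) * Metric.infDist x C) -
          (2 - ((n : ℝ) + 1) * Metric.infDist y C) =
          -(((n : ℝ) + 1) * (Metric.infDist x C - Metric.infDist y C)) := by ring
      rw [h1, abs_neg, abs_mul, abs_of_pos (hn0 n)]
      exact mul_le_mul_of_nonneg_left (hinf x y) (hn0 n).le
    have hg0 : ∀ n x, 0 ≤ g n x := fun n x => by rw [hg]; exact le_max_right _ _
    have hg2 : ∀ n x, g n x ≤ 2 := by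
      intro n x
      rw [hg]
      refine max_le ?_ zero_le_two
      have h1 : 0 ≤ ((n : ℝ) + 1) * Metric.infDist x C :=
        mul_nonneg (hn0 n).le Metric.infDist_nonneg
      linarith
    have hcont : ∀ n, Continuous (g n) := by
      intro n
      have h1 : g n = fun x => max (2 - ((n : ℝ) + 1) * Metric.infDist x C) 0 := funext (hg n)
      rw [h1]
      exact (continuous_const.sub
        (continuous_const.mul (Metric.continuous_infDist_pt C))).max continuous_const
    have hpd : ∀ (x : ℝ) (z : ℤ), Metric.infDist (x + z) C = Metric.infDist x C := by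
      intro x z
      have h1 : (fun t : ℝ => t + z) '' C = C := by
        ext t
        constructor
        · rintro ⟨s, hs, rfl⟩
          exact hper s hs z
        · intro ht
          refine ⟨t + ((-z : ℤ) : ℝ), hper t ht _, ?_⟩
          push_cast
          ring
      have h2 := Metric.infDist_image (isometry_add_right (z : ℝ)) (x := x) (t := C)
      rwa [h1] at h2
    have hlim : Filter.Tendsto (fun n => ∫ x in (0 : ℝ)..1, g n x) Filter.atTop
        (nhds (∫ x in (0 : ℝ)..1, (0 : ℝ))) := by
      refine intervalIntegral.tendsto_integral_filter_of_dominated_convergence (fun _ => 2)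
        ?_ ?_ ?_ ?_
      · exact Filter.Eventually.of_forall fun n => (hcont n).aestronglyMeasurable
      · refine Filter.Eventually.of_forall fun n => MeasureTheory.ae_of_all _ fun x _ => ?_
        rw [Real.norm_eq_abs, abs_of_nonneg (hg0 n x)]
        exact hg2 n x
      · exact intervalIntegrable_const
      · filter_upwards [MeasureTheory.measure_eq_zero_iff_ae_notMem.1 h0] with x hx _
        have hd : 0 < Metric.infDist x C := (hC.notMem_iff_infDist_pos hne).1 hx
        obtain ⟨m, hm⟩ := exists_nat_gt (2 / Metric.infDist x C)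
        refine tendsto_const_nhds.congr' ?_
        filter_upwards [Filter.eventually_ge_atTop m] with n hn
        have h1 : (m : ℝ) ≤ n := by exact_mod_cast hn
        have h2 : 2 < ((n : ℝ) + 1) * Metric.infDist x C := by
          rw [div_lt_iff₀ hd] at hm
          nlinarith
        rw [hg, max_eq_right (by linarith)]
    rw [intervalIntegral.integral_zero] at hlim
    obtain ⟨n, hn⟩ := (hlim.eventually_lt_const hδ).exists
    refine ⟨g n, (n : ℝ) + 1, 1 / ((n : ℝ) + 1), by positivity, ?_, hg0 n, fun x z => ?_, hlip n,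
      hn.le, ?_⟩
    · have := Nat.cast_nonneg (α := ℝ) n
      linarith
    · rw [hg, hg, hpd]
    · rintro x ⟨y, hy, hxy⟩
      have h1 : Metric.infDist x C ≤ 1 / ((n : ℝ) + 1) := by
        refine (Metric.infDist_le_dist_of_mem hy).trans ?_
        rwa [Real.dist_eq]
      have h2 : ((n : ℝ) + 1) * Metric.infDist x C ≤ 1 := by
        rw [le_div_iff₀ (hn0 n)] at h1
        linarith
      rw [hg]
      exact le_max_of_le_left (by linarith)

end Pool.Agent.Lib.MP_3e612f_nt.NF
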