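import Pool.Agent.Lib.MP_3e612f_nt.NF.K.Loc

/-! One pair of primes, ordinary averages. -/

set_option autoImplicit false

namespace Pool.Agent.Lib.MP_3e612f_nt.NF

open Finset
open Pool.Agent.Lib.MP_3e612f_nt.MR (mu ex)

theorem tele_o (b : ℕ → ℂ) (N : ℕ) :
    ∑ k ∈ Icc 1 N, b k - ∑ k ∈ Icc 1 N, b (k + 1) = b 1 - b (N + 1) := by
  induction N with
  | zero => simp
  | succ n ih =>
    rw [Finset.sum_Icc_succ_top (by omega), Finset.sum_Icc_succ_top (by omega)]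
    linear_combination ih

/-- a single shift -/
theorem slide_one_o (a : ℕ → ℂ) (ha : ∀ n, ‖a n‖ ≤ 1) (j N : ℕ) :
    ‖∑ k ∈ Icc 1 N, a k - ∑ k ∈ Icc 1 N, a (k + j)‖ ≤ 2 * j := by
  induction j with
  | zero => simp
  | succ j ih =>
    have h1 : ‖∑ k ∈ Icc 1 N, a (k + j) - ∑ k ∈ Icc 1 N, a (k + (j + 1))‖ ≤ 2 := by
      have h2 : ∑ k ∈ Icc 1 N, a (k + j) - ∑ k ∈ Icc 1 N, a (k + (j + 1)) =
          a (1 + j) - a (N + 1 + j) := by
        rw [← tele_o (fun k => a (k + j)) N]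
        congr 1
        refine sum_congr rfl fun k _ => ?_
        congr 1
        ring
      rw [h2]
      refine (norm_sub_le _ _).trans ?_
      have := ha (1 + j)
      have := ha (N + 1 + j)
      linarith
    have h2 : ∑ k ∈ Icc 1 N, a k - ∑ k ∈ Icc 1 N, a (k + (j + 1))
        = (∑ k ∈ Icc 1 N, a k - ∑ k ∈ Icc 1 N, a (k + j)) +
          (∑ k ∈ Icc 1 N, a (k + j) - ∑ k ∈ Icc 1 N, a (k + (j + 1))) := by ring
    rw [h2]
    refine (norm_add_le _ _).trans ?_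
    push_cast
    linarith

/-- Sliding: `|∑_k a(k) - ∑_k a(k+j)| ≤ 2j`, average over `j < J`. -/
theorem slide_o (a : ℕ → ℂ) (ha : ∀ n, ‖a n‖ ≤ 1) (J : ℕ) (hJ : 1 ≤ J) (N : ℕ) :
    ‖∑ k ∈ Icc 1 N, a k‖ ≤ ∑ k ∈ Icc 1 N, ‖∑ j ∈ range J, a (k + j)‖ / J + 2 * J := by
  have hJ0 : (0 : ℝ) < J := by exact_mod_cast hJ
  have h1 : (J : ℂ) * ∑ k ∈ Icc 1 N, a k = ∑ k ∈ Icc 1 N, (∑ j ∈ range J, a (k + j))
      + ∑ j ∈ range J, (∑ k ∈ Icc 1 N, a k - ∑ k ∈ Icc 1 N, a (k + j)) := by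
    rw [sum_sub_distrib, sum_const, card_range, nsmul_eq_mul]
    have : ∑ k ∈ Icc 1 N, (∑ j ∈ range J, a (k + j)) = ∑ j ∈ range J, ∑ k ∈ Icc 1 N, a (k + j) :=
      sum_comm
    rw [this]
    ring
  have h2 : (J : ℝ) * ‖∑ k ∈ Icc 1 N, a k‖ ≤ ∑ k ∈ Icc 1 N, ‖∑ j ∈ range J, a (k + j)‖ + J * (2 * J) := by
    have h3 : (J : ℝ) * ‖∑ k ∈ Icc 1 N, a k‖ = ‖(J : ℂ) * ∑ k ∈ Icc 1 N, a k‖ := by
      rw [norm_mul, Complex.norm_natCast]
    rw [h3, h1]
    refine (norm_add_le _ _).trans (add_le_add (norm_sum_le _ _) ?_)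
    refine (norm_sum_le _ _).trans ?_
    have h4 : ∀ j ∈ range J, ‖∑ k ∈ Icc 1 N, a k - ∑ k ∈ Icc 1 N, a (k + j)‖ ≤ 2 * J := by
      intro j hj
      rw [mem_range] at hj
      refine (slide_one_o a ha j N).trans ?_
      have : (j : ℝ) ≤ J := by exact_mod_cast hj.le
      linarith
    refine (sum_le_sum h4).trans (le_of_eq ?_)
    rw [sum_const, card_range, nsmul_eq_mul]
  rw [← sum_div, ← sub_le_iff_le_add, le_div_iff₀ hJ0]
  linarith

open scoped Classical in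
/-- Few bad points: `p k ≤ r` for at most `H` values of `k`; otherwise `bad_point` (K/Bad): `k + j = (r + H i)/p` with `1 ≤ i`, `H i < 2 p k ≤ 2 p N`, `j < J`: at most `J · 2pN/H` values. -/
theorem bad_o (r H p J N : ℕ) (hH : 1 ≤ H) (hr : r ≤ H) (hp : 1 ≤ p) (hJ : 1 ≤ J) (hpJ : 2 * (p * J) ≤ H) :
    ∑ k ∈ Icc 1 N, (if Good r H p J k then (0 : ℝ) else 1) ≤ 2 * p * J / H * N + H := by
  have hH0 : (0 : ℝ) < H := by exact_mod_cast hH
  have h1 : ∀ k ∈ Icc 1 N, (if Good r H p J k then (0 : ℝ) else 1) ≤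
      (if k ≤ H then 1 else 0) + ∑ i ∈ Icc 1 (2 * p * N / H), ∑ j ∈ range J,
        (if k + j = (r + H * i) / p then (1 : ℝ) else 0) := by
    intro k hk
    rw [mem_Icc] at hk
    have hS : (0 : ℝ) ≤ ∑ i ∈ Icc 1 (2 * p * N / H), ∑ j ∈ range J,
        (if k + j = (r + H * i) / p then (1 : ℝ) else 0) :=
      sum_nonneg fun i _ => sum_nonneg fun j _ => by split_ifs <;> norm_num
    have h6 : (0 : ℝ) ≤ (if k ≤ H then 1 else 0) := by split_ifs <;> norm_num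
    by_cases hg : Good r H p J k
    · rw [if_pos hg]
      linarith
    rw [if_neg hg]
    by_cases hk1 : p * k ≤ r
    · have h2 : k ≤ H := by
        have : k ≤ p * k := Nat.le_mul_of_pos_left _ hp
        omega
      rw [if_pos h2]
      linarith
    push Not at hk1
    obtain ⟨i, j, hi1, hj, hkj, hik⟩ := bad_point r H p J k hH hp hJ hpJ hk1 (fun h => hg ⟨hk1, h⟩)
    have hiN : i ≤ 2 * p * N / H := by
      rw [Nat.le_div_iff_mul_le (by omega), mul_comm]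
      exact hik.le.trans (Nat.mul_le_mul_left _ hk.2)
    have h3 : (1 : ℝ) ≤ ∑ i ∈ Icc 1 (2 * p * N / H), ∑ j ∈ range J,
        (if k + j = (r + H * i) / p then (1 : ℝ) else 0) := by
      have h4 : (1 : ℝ) ≤ ∑ j ∈ range J, (if k + j = (r + H * i) / p then (1 : ℝ) else 0) := by
        have := single_le_sum (f := fun j => if k + j = (r + H * i) / p then (1 : ℝ) else 0) (s := range J)
          (fun j _ => by split_ifs <;> norm_num) (mem_range.mpr hj)
        rwa [if_pos hkj] at this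
      refine h4.trans ?_
      exact single_le_sum (f := fun i : ℕ => ∑ j ∈ range J, (if k + j = (r + H * i) / p then (1 : ℝ) else 0))
        (s := Icc 1 (2 * p * N / H))
        (fun i _ => sum_nonneg fun j _ => by split_ifs <;> norm_num) (mem_Icc.mpr ⟨hi1, hiN⟩)
    linarith
  refine (sum_le_sum h1).trans ?_
  rw [sum_add_distrib]
  have h2 : ∑ k ∈ Icc 1 N, (if k ≤ H then (1 : ℝ) else 0) ≤ H := by
    rw [← sum_filter, sum_const, nsmul_eq_mul, mul_one]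
    have : #{k ∈ Icc 1 N | k ≤ H} ≤ H := by
      have h3 : {k ∈ Icc 1 N | k ≤ H} ⊆ Icc 1 H := by
        intro k hk
        rw [mem_filter, mem_Icc] at hk
        rw [mem_Icc]
        exact ⟨hk.1.1, hk.2⟩
      have := card_le_card h3
      rwa [Nat.card_Icc, Nat.add_sub_cancel] at this
    exact_mod_cast this
  have h3 : ∑ k ∈ Icc 1 N, ∑ i ∈ Icc 1 (2 * p * N / H), ∑ j ∈ range J,
      (if k + j = (r + H * i) / p then (1 : ℝ) else 0) ≤ 2 * p * J / H * N := by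
    rw [sum_comm]
    have h4 : ∀ i ∈ Icc 1 (2 * p * N / H), ∑ k ∈ Icc 1 N, ∑ j ∈ range J,
        (if k + j = (r + H * i) / p then (1 : ℝ) else 0) ≤ J := by
      intro i _
      rw [sum_comm]
      have h5 : ∀ j ∈ range J, ∑ k ∈ Icc 1 N, (if k + j = (r + H * i) / p then (1 : ℝ) else 0) ≤ 1 := by
        intro j _
        rw [← sum_filter, sum_const, nsmul_eq_mul, mul_one]
        have h6 : #{k ∈ Icc 1 N | k + j = (r + H * i) / p} ≤ 1 := by
          rw [card_le_one]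
          intro a ha b hb
          rw [mem_filter] at ha hb
          omega
        exact_mod_cast h6
      refine (sum_le_sum h5).trans (le_of_eq ?_)
      rw [sum_const, card_range, nsmul_eq_mul, mul_one]
    refine (sum_le_sum h4).trans ?_
    rw [sum_const, Nat.card_Icc, Nat.add_sub_cancel, nsmul_eq_mul]
    have h5 : ((2 * p * N / H : ℕ) : ℝ) ≤ ((2 * p * N : ℕ) : ℝ) / (H : ℝ) := Nat.cast_div_le
    have h6 := mul_le_mul_of_nonneg_right h5 (Nat.cast_nonneg J)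
    refine h6.trans (le_of_eq ?_)
    push_cast
    ring
  linarith

open scoped Classical in
/-- As `loc_pair` (K/Loc): `slide_o`, `loc_alt`, `bad_o`. -/
theorem loc_pair_o (r H p q J N : ℕ) (hH : 1 ≤ H) (hr : r ≤ H) (hJ : 1 ≤ J) (hp : 1 ≤ p) (hq : 1 ≤ q) (hpJ : 2 * (p * J) ≤ H) (hqJ : 2 * (q * J) ≤ H)
    (θ : ℕ → ℂ) (g : ℕ → ℕ → ℂ) (hθ : ∀ n, ‖θ n‖ = 1) (hg : ∀ n h, ‖g n h‖ ≤ 1) (κ : ℝ) (hκ : 0 ≤ κ) (R : ℕ → Prop)
    (hR : ∀ k, Good r H p J k → Good r H q J k → κ * J ≤ ‖∑ j ∈ range J, g (st r H (p * k)) (p * k - st r H (p * k) + p * j) *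
      (starRingEnd ℂ) (g (st r H (q * k)) (q * k - st r H (q * k) + q * j))‖ → R k) :
    ‖∑ k ∈ Icc 1 N, Psi r H θ g (p * k) * (starRingEnd ℂ) (Psi r H θ g (q * k))‖ ≤
      κ * N + ∑ k ∈ Icc 1 N, (if R k ∧ Good r H p J k ∧ Good r H q J k then (1 : ℝ) else 0) + (2 * p * J / H * N + H) + (2 * q * J / H * N + H) + 2 * J := by
  have h1 := slide_o (fun k => Psi r H θ g (p * k) * (starRingEnd ℂ) (Psi r H θ g (q * k))) (fun k => by
    rw [norm_mul, RCLike.norm_conj]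
    exact mul_le_one₀ (norm_Psi_le r H θ g hθ hg _) (norm_nonneg _) (norm_Psi_le r H θ g hθ hg _)) J hJ N
  refine h1.trans (add_le_add ?_ le_rfl)
  have h2 : ∀ k ∈ Icc 1 N, ‖∑ j ∈ range J, Psi r H θ g (p * (k + j)) * (starRingEnd ℂ) (Psi r H θ g (q * (k + j)))‖ / J ≤
      κ + (if R k ∧ Good r H p J k ∧ Good r H q J k then 1 else 0)
        + (if Good r H p J k then 0 else 1) + (if Good r H q J k then 0 else 1) := by
    intro k _
    exact loc_alt r H p q J k hJ θ g hθ hg κ hκ (R k) (hR k)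
  refine (sum_le_sum h2).trans ?_
  rw [sum_add_distrib, sum_add_distrib, sum_add_distrib, sum_const, Nat.card_Icc,
    Nat.add_sub_cancel, nsmul_eq_mul]
  have h4 := bad_o r H p J N hH hr hp hJ hpJ
  have h5 := bad_o r H q J N hH hr hq hJ hqJ
  linarith

end Pool.Agent.Lib.MP_3e612f_nt.NF
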