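import Pool.Agent.Lib.MP_3e612f_nt.NF.K.Loc
import Pool.Agent.Lib.MP_3e612f_nt.NF.K.Win

/-! Windows, ordinary averages. -/

set_option autoImplicit false

namespace Pool.Agent.Lib.MP_3e612f_nt.NF

open Finset
open Pool.Agent.Lib.MP_3e612f_nt.MR (mu ex)

/-- splitting an initial segment into windows -/
private theorem win_o_tel (F : ℕ → ℂ) (r H : ℕ) (hF0 : ∀ m ≤ r, F m = 0) (T : ℕ) :
    ∑ m ∈ Icc 1 (r + H * T), F m = ∑ j ∈ range T, ∑ h ∈ Icc 1 H, F (r + H * j + h) := by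
  induction T with
  | zero =>
    rw [mul_zero, add_zero, range_zero, sum_empty]
    refine sum_eq_zero fun m hm => ?_
    rw [mem_Icc] at hm
    exact hF0 m hm.2
  | succ T ih =>
    have h1 : r + H * (T + 1) = r + H * T + H := by ring
    rw [h1, sum_Icc_add, sum_range_succ, ih]

/-- As `win` (K/Win) without the weights `1/n`: choose the class `r` modulo `H` for which the sum over `n ≡ r` of `|w_n|` is at least `ε N`, `θ_n w_n = |w_n|`; `∑_{m ≤ r + HT} μ(m) Psi(m) = ∑_{j<T} |w_{r+Hj}|`, and cutting off at `N` costs at most `2H ≤ (ε/2) N`. -/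
theorem win_o (ε : ℝ) (hε : 0 < ε) (H : ℕ) (hH : 1 ≤ H) : ∃ N₀ : ℕ, ∀ N : ℕ, N₀ ≤ N → ∀ g : ℕ → ℕ → ℂ, (∀ n h, ‖g n h‖ ≤ 1) →
    ε * H * N ≤ ∑ n ∈ Icc 1 N, ‖∑ h ∈ Icc 1 H, (mu (n + h) : ℂ) * g n h‖ →
    ∃ r : ℕ, 1 ≤ r ∧ r ≤ H ∧ ∃ θ : ℕ → ℂ, (∀ n, ‖θ n‖ = 1) ∧ ε / 2 * N ≤ ‖∑ m ∈ Icc 1 N, (mu m : ℂ) * Psi r H θ g m‖ := by
  refine ⟨⌈4 * H / ε⌉₊ + 1, fun N hN g hg hbig => ?_⟩
  have hlin : 4 * H ≤ ε * N := by
    have h1 : 4 * H / ε ≤ N := by
      refine (Nat.le_ceil _).trans ?_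
      have : ⌈4 * H / ε⌉₊ ≤ N := by omega
      exact_mod_cast this
    rw [div_le_iff₀ hε] at h1
    linarith
  set w : ℕ → ℂ := fun n => ∑ h ∈ Icc 1 H, (mu (n + h) : ℂ) * g n h with hw
  -- unimodular factors
  have hθ : ∀ n, ∃ θ : ℂ, ‖θ‖ = 1 ∧ θ * w n = ‖w n‖ := by
    intro n
    by_cases h0 : w n = 0
    · exact ⟨1, by simp, by simp [h0]⟩
    · have h1 : (‖w n‖ : ℂ) ≠ 0 := by
        rw [Ne, Complex.ofReal_eq_zero, norm_eq_zero]
        exact h0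
      refine ⟨(starRingEnd ℂ) (w n) / ‖w n‖, ?_, ?_⟩
      · rw [norm_div, RCLike.norm_conj, Complex.norm_real, norm_norm, div_self]
        rwa [Ne, norm_eq_zero]
      · rw [div_mul_eq_mul_div, div_eq_iff h1, mul_comm, Complex.mul_conj, Complex.normSq_eq_norm_sq]
        push_cast
        ring
  choose θ hθ1 hθ2 using hθ
  -- the class
  set T : ℕ := N / H + 1 with hT
  have hNT : N < H * T := by
    have := Nat.lt_mul_div_succ N (show 0 < H by omega)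
    rw [hT]
    exact this
  have hTN : H * T ≤ N + H := by
    rw [hT, mul_add, mul_one]
    have := Nat.mul_div_le N H
    omega
  have h1 : ε * H * N ≤ ∑ r ∈ Icc 1 H, ∑ j ∈ range T, ‖w (r + H * j)‖ := by
    rw [← sum_classes_Icc (fun n => ‖w n‖)]
    refine hbig.trans ?_
    refine sum_le_sum_of_subset_of_nonneg ?_ fun i _ _ => norm_nonneg _
    intro i hi
    rw [mem_Icc] at hi ⊢
    omega
  obtain ⟨r, hr, hrbig⟩ : ∃ r ∈ Icc 1 H, ε * N ≤ ∑ j ∈ range T, ‖w (r + H * j)‖ := by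
    by_contra hcon
    push Not at hcon
    have h2 : ∑ r ∈ Icc 1 H, ∑ j ∈ range T, ‖w (r + H * j)‖ < ∑ r ∈ Icc 1 H, ε * N :=
      sum_lt_sum_of_nonempty ⟨1, mem_Icc.mpr ⟨le_rfl, hH⟩⟩ hcon
    rw [sum_const, Nat.card_Icc, Nat.add_sub_cancel, nsmul_eq_mul] at h2
    have h3 : ε * H * N = H * (ε * N) := by ring
    linarith
  rw [mem_Icc] at hr
  obtain ⟨hr1, hrH⟩ := hr
  refine ⟨r, hr1, hrH, θ, hθ1, ?_⟩
  set F : ℕ → ℂ := fun m => (mu m : ℂ) * Psi r H θ g m with hF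
  have hF1 : ∀ m, ‖F m‖ ≤ 1 := by
    intro m
    rw [hF]
    dsimp only
    rw [norm_mul]
    exact mul_le_one₀ (norm_mu_le_one m) (norm_nonneg _) (norm_Psi_le r H θ g hθ1 hg m)
  have hF0 : ∀ m ≤ r, F m = 0 := by
    intro m hm
    rw [hF]
    dsimp only
    unfold Psi
    rw [if_neg (by omega), mul_zero]
  have hsum : ∀ j, ∑ h ∈ Icc 1 H, F (r + H * j + h) = (‖w (r + H * j)‖ : ℂ) := by
    intro j
    rw [← hθ2, hw]
    dsimp only
    rw [mul_sum]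
    refine sum_congr rfl fun h hh => ?_
    rw [mem_Icc] at hh
    rw [hF]
    dsimp only
    have h2 : st r H (r + H * j + h) = r + H * j := by
      unfold st
      have h3 : (r + H * j + h - 1 - r) / H = j := by
        rw [Nat.div_eq_iff (by omega)]
        have : j * H = H * j := mul_comm _ _
        constructor <;> omega
      rw [h3]
    unfold Psi
    rw [if_pos (by omega), h2, Nat.add_sub_cancel_left]
    ring
  have h2 : ∑ m ∈ Icc 1 (r + H * T), F m = ((∑ j ∈ range T, ‖w (r + H * j)‖ : ℝ) : ℂ) := by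
    rw [win_o_tel F r H hF0 T]
    push_cast
    exact sum_congr rfl fun j _ => hsum j
  -- cutting off at `N`
  have h4 : ‖∑ m ∈ Icc 1 (r + H * T), F m - ∑ m ∈ Icc 1 N, F m‖ ≤ 2 * H := by
    obtain ⟨d, hd⟩ := Nat.exists_eq_add_of_le (show N ≤ r + H * T by omega)
    rw [hd, sum_Icc_add, add_sub_cancel_left]
    refine (norm_sum_le _ _).trans ?_
    refine (sum_le_sum fun h _ => hF1 (N + h)).trans ?_
    rw [sum_const, Nat.card_Icc, Nat.add_sub_cancel, nsmul_eq_mul, mul_one]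
    have h6 : d ≤ 2 * H := by omega
    exact_mod_cast h6
  have h5 : ∑ j ∈ range T, ‖w (r + H * j)‖ ≤ ‖∑ m ∈ Icc 1 (r + H * T), F m‖ := by
    rw [h2, Complex.norm_real]
    exact le_abs_self _
  have h6 : ‖∑ m ∈ Icc 1 (r + H * T), F m‖ ≤
      ‖∑ m ∈ Icc 1 (r + H * T), F m - ∑ m ∈ Icc 1 N, F m‖ + ‖∑ m ∈ Icc 1 N, F m‖ := by
    have h7 := norm_add_le (∑ m ∈ Icc 1 (r + H * T), F m - ∑ m ∈ Icc 1 N, F m) (∑ m ∈ Icc 1 N, F m)
    rwa [sub_add_cancel] at h7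
  have h7 : ε / 2 * N = ε * N - ε * N / 2 := by ring
  rw [h7]
  linarith

end Pool.Agent.Lib.MP_3e612f_nt.NF
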