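import Pool.Agent.Lib.MP_3e612f_nt.NF.O.BlockNull
import Pool.Agent.Lib.MP_3e612f_nt.NF.O.Blocks
import Pool.Agent.Lib.MP_3e612f_nt.NF.O.OneNO
import Pool.Agent.Lib.MP_3e612f_nt.NF.O.ContraO
import Pool.Agent.Lib.MP_3e612f_nt.NF.K.Main

/-! Windows, vector frequencies, null sets, ordinary averages. -/

set_option autoImplicit false

namespace Pool.Agent.Lib.MP_3e612f_nt.NF

open Finset
open Pool.Agent.Lib.MP_3e612f_nt.MR (mu ex)

/-- A set which is invariant under integral translations and null in `[0,1)` is null. -/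
theorem null_of_unit (C : Set ℝ) (hper : ∀ x ∈ C, ∀ z : ℤ, x + z ∈ C) (h : MeasureTheory.volume (C ∩ Set.Ico 0 1) = 0) :
    MeasureTheory.volume C = 0 := by
  have h1 : C ⊆ ⋃ z : ℤ, (fun x : ℝ => x + (z : ℝ)) ⁻¹' (C ∩ Set.Ico 0 1) := by
    intro x hx
    rw [Set.mem_iUnion]
    refine ⟨-⌊x⌋, hper x hx (-⌊x⌋), ?_, ?_⟩
    · push_cast
      have := Int.floor_le x
      linarith
    · push_cast
      have := Int.lt_floor_add_one x
      linarith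
  refine MeasureTheory.measure_mono_null h1 (MeasureTheory.measure_iUnion_null fun z => ?_)
  rw [MeasureTheory.measure_preimage_add_right]
  exact h

/-- A closed set which is invariant under integral translations and has no rational element stays away from the rational numbers with
denominators less than `r₀`. -/
theorem dist_rat (C : Set ℝ) (hC : IsClosed C) (hper : ∀ x ∈ C, ∀ z : ℤ, x + z ∈ C) (hrat : ∀ q : ℚ, (q : ℝ) ∉ C) (r₀ : ℕ) :
    ∃ ρ₀ : ℝ, 0 < ρ₀ ∧ ∀ x ∈ C, ∀ r : ℕ, 1 ≤ r → r < r₀ → ∀ b : ℤ, 2 * ρ₀ ≤ |x - b / r| := by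
  have hM : 1 ≤ r₀.factorial := Nat.factorial_pos r₀
  have hM0 : (0 : ℝ) < (r₀.factorial : ℝ) := by exact_mod_cast hM
  obtain ⟨c, hc, hfar⟩ := far_int C hC hper hrat r₀.factorial hM
  refine ⟨c / r₀.factorial / 2, by positivity, fun x hx r hr1 hr2 b => ?_⟩
  have hr0 : (r : ℝ) ≠ 0 := by
    have : r ≠ 0 := by omega
    exact_mod_cast this
  obtain ⟨d, hd⟩ := Nat.dvd_factorial (show 0 < r by omega) hr2.le
  have h1 := hfar x hx
  have h2 : dZ ((r₀.factorial : ℝ) * x) ≤ (r₀.factorial : ℝ) * |x - b / r| := by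
    refine (dZ_le_sub_int _ (d * b)).trans (le_of_eq ?_)
    rw [← abs_of_pos hM0, ← abs_mul, abs_of_pos hM0]
    congr 1
    rw [hd]
    push_cast
    field_simp
  have h3 : 2 * (c / r₀.factorial / 2) = c / r₀.factorial := by ring
  rw [h3, div_le_iff₀ hM0]
  linarith

/-- As `windows` (K/Main) with ordinary averages, for null sets: `B` from `hp (e²/512)`, `κ₂ = e²/16384/#(U ×ˢ U)`; `C` = the union of the finitely many closed null sets without rational numbers; `block_null` with `δ = κ₂^4/4` gives `R₀`, `ρ₀` = half the distance of `C` to the rational numbers with denominator `< R₀` (as in U/Main, or `exists_dist_rat`-like), `ρ ≤ ρ₀`;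
`exists_blocks`; `one_n_o`, `wpig`, `contradiction_of_pairs_o` for the block. -/
theorem windows_o (t : ℕ) (ht : 1 ≤ t) {ι Om : Type} [Fintype ι] (f : Om → ℕ → ℂ) (hf : ∀ o n, ‖f o n‖ ≤ 1) (fr : Om → ι → ℝ) (hp : PairHyp t f fr)
    (ε : ℝ) (hε : 0 < ε) : ∃ B : ℕ, ∀ S : Set Om,
      (∀ m : ι → ℤ, m ≠ 0 → (∀ i, |m i| ≤ B) → Small 0 (Fr {x | ∃ o ∈ S, x = dot m (fr o)})) →
      ∃ H₀ : ℕ, ∀ H : ℕ, H₀ ≤ H → ∃ N₀ : ℕ, ∀ N : ℕ, N₀ ≤ N → ∀ o : ℕ → Om, (∀ n, o n ∈ S) →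
        ∑ n ∈ Icc 1 N, ‖∑ h ∈ Icc 1 H, (mu (n + h) : ℂ) * f (o n) h‖ ≤ ε * H * N := by
  classical
  -- constants
  set e : ℝ := min (ε / 2) 1 with he
  have he0 : 0 < e := lt_min (by positivity) one_pos
  have he1 : e ≤ 1 := min_le_right _ _
  have heε : 2 * e ≤ ε := by
    have := min_le_left (ε / 2) 1
    linarith
  obtain ⟨B, hB⟩ := hp (e ^ 2 / 512) (by positivity)
  obtain ⟨U, hUne, -, hU⟩ := box_finset ι B
  set κ₂ : ℝ := e ^ 2 / 16384 / (#(U ×ˢ U) : ℝ) with hκ₂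
  have hUU : (0 : ℝ) < (#(U ×ˢ U) : ℝ) := by
    rw [card_product]
    have := hUne.card_pos
    positivity
  have hκ₂0 : 0 < κ₂ := by positivity
  refine ⟨B, fun S hS => ?_⟩
  -- the closed set
  set U' : Finset (ι → ℤ) := U.filter (fun m => m ≠ 0) with hU'
  have hU'S : ∀ m ∈ U', Small 0 (Fr {x | ∃ o ∈ S, x = dot m (fr o)}) := by
    intro m hm
    rw [hU', mem_filter] at hm
    exact hS m hm.2 ((hU m).mp hm.1)
  obtain ⟨hCcl, hCper, hCrat, hCvol⟩ := union_small U' (fun m => Fr {x | ∃ o ∈ S, x = dot m (fr o)}) 0 (fun m _ => Fr_closed _) (fun m _ x hx z => Fr_add_int _ hx z) hU'S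
  set C : Set ℝ := ⋃ m ∈ U', Fr {x | ∃ o ∈ S, x = dot m (fr o)} with hC
  have hmemC : ∀ m ∈ U', ∀ o ∈ S, dot m (fr o) ∈ C := by
    intro m hm o ho
    rw [hC]
    simp only [Set.mem_iUnion]
    exact ⟨m, hm, mem_Fr ⟨o, ho, rfl⟩⟩
  have hC0 : MeasureTheory.volume C = 0 := by
    refine null_of_unit C hCper ?_
    rw [mul_zero, ENNReal.ofReal_zero] at hCvol
    exact nonpos_iff_eq_zero.1 hCvol
  obtain ⟨R₀, hR₀⟩ := block_null t ht C hCcl hCper hC0 (κ₂ ^ 4 / 4) (by positivity)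
  obtain ⟨ρ₀, hρ₀, hdist⟩ := dist_rat C hCcl hCper hCrat R₀
  obtain ⟨ρ, hρ, j', hj'⟩ := hR₀ ρ₀ hρ₀
  obtain ⟨j₀, j₁, hj₀, hL, hblk⟩ := exists_blocks j' (100 / e ^ 2) (min (e ^ 2 / 128) (κ₂ ^ 4 / 16)) (lt_min (by positivity) (by positivity))
  set P : Finset ℕ := (Ico j₀ j₁).biUnion PB with hPdef
  have hPB : ∀ j ∈ Ico j₀ j₁, ∀ p ∈ PB j, p ∈ P := fun j hj p hp => mem_biUnion.2 ⟨j, hj, hp⟩
  have hP1 : ∀ p ∈ P, 1 ≤ p := by
    intro p hp
    obtain ⟨j, _, hp⟩ := mem_biUnion.1 hp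
    exact (PB_prime hp).one_le
  obtain ⟨c, hc0, hc⟩ := far_finset C hCcl hCper hCrat t P hP1
  set X : ℕ := 4 ^ j₁ with hXdef
  have hX1 : 1 ≤ X := Nat.one_le_pow _ _ (by norm_num)
  have hX0 : (0 : ℝ) < X := by exact_mod_cast hX1
  have hX : ∀ j ∈ Ico j₀ j₁, ∀ p ∈ PB j, p ≤ X := by
    intro j hj p hp
    refine (PB_up hp).trans (Nat.pow_le_pow_right (by norm_num) ?_)
    have := (mem_Ico.1 hj).2
    omega
  -- the length of the windows
  set ρm : ℝ := min ρ ρ₀ with hρm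
  have hρm0 : 0 < ρm := lt_min hρ hρ₀
  set D : ℝ := 2 * B / c + X ^ t * B / ρm + 3 * B * X ^ (4 * t) + 1 with hD
  have hD1 : 1 ≤ D := by
    have : 0 ≤ 2 * B / c + X ^ t * B / ρm + 3 * B * X ^ (4 * t) := by positivity
    linarith
  refine ⟨⌈2048 * X * (D + 1) / e ^ 2⌉₊ + 1, fun H hH => ?_⟩
  have hH1 : 1 ≤ H := by omega
  have hH2 : 2048 * X * (D + 1) / e ^ 2 ≤ H := by
    refine (Nat.le_ceil _).trans ?_
    have : ⌈2048 * X * (D + 1) / e ^ 2⌉₊ ≤ H := by omega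
    exact_mod_cast this
  set J : ℕ := ⌊e ^ 2 * H / (2048 * X)⌋₊ with hJ
  have hJ1 : (J : ℝ) ≤ e ^ 2 * H / (2048 * X) := Nat.floor_le (by positivity)
  have hJ2 : e ^ 2 * H / (2048 * X) < J + 1 := Nat.lt_floor_add_one _
  have hJD : D ≤ J := by
    have h1 : D + 1 ≤ e ^ 2 * H / (2048 * X) := by
      rw [le_div_iff₀ (by positivity)]
      rw [div_le_iff₀ (by positivity)] at hH2
      linarith
    linarith
  have hJpos : (0 : ℝ) < J := by linarith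
  have hJ1' : 1 ≤ J := by exact_mod_cast hJpos
  have hJH : 2048 * ((4 : ℝ) ^ j₁ * J) ≤ e ^ 2 * H := by
    rw [le_div_iff₀ (by positivity)] at hJ1
    have h4 : (X : ℝ) = (4 : ℝ) ^ j₁ := by
      rw [hXdef]
      push_cast
      ring
    rw [← h4]
    linarith
  set τ : ℝ := B / J with hτ
  have hτ0 : 0 ≤ τ := by positivity
  have hτc : τ < c := by
    rw [hτ, div_lt_iff₀ hJpos]
    have h1 : 2 * B / c ≤ J := by
      have : 0 ≤ X ^ t * B / ρm + 3 * B * X ^ (4 * t) := by positivity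
      linarith
    rw [div_le_iff₀ hc0] at h1
    have h2 : 0 < c * J := by positivity
    linarith
  have hτρ : (X : ℝ) ^ t * τ ≤ ρm := by
    have h1 : X ^ t * B / ρm ≤ J := by
      have : 0 ≤ 2 * B / c + 3 * B * X ^ (4 * t) := by positivity
      linarith
    rw [hτ, mul_div_assoc', div_le_iff₀ hJpos]
    rw [div_le_iff₀ hρm0] at h1
    linarith
  have hτX : 2 * τ * (X : ℝ) ^ (4 * t) < 1 := by
    have h1 : 3 * B * X ^ (4 * t) + 1 ≤ (J : ℝ) := by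
      have : 0 ≤ 2 * B / c + X ^ t * B / ρm := by positivity
      linarith
    have h2 : 2 * τ * (X : ℝ) ^ (4 * t) = 2 * B * X ^ (4 * t) / J := by
      rw [hτ]
      ring
    rw [h2, div_lt_one hJpos]
    have : 0 ≤ (B : ℝ) * X ^ (4 * t) := by positivity
    linarith
  -- the relation
  set R : ℕ → ℕ → Om → Om → Prop := fun p q v v' => ∃ m ∈ U ×ˢ U, (m.1 ≠ 0 ∨ m.2 ≠ 0) ∧ dZ ((p : ℝ) ^ t * dot m.1 (fr v) + (q : ℝ) ^ t * dot m.2 (fr v')) ≤ τ with hR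
  obtain ⟨N₀, hN₀⟩ := one_n_o f hf e he0 he1 j₀ j₁ hL (fun j hj => (hblk j hj).1) (fun j hj p hp => ((hblk j hj).2 p hp).trans (min_le_left _ _)) J H hJ1' hH1 hJH R S (by
    intro j hj p hp q hq v _ v' _ s s' _ _ hbig
    obtain ⟨m, m', hne, hm, hm', hd⟩ := hB p q J (PB_prime hp).one_le (PB_prime hq).one_le hJ1' v v' s s' hbig
    exact ⟨(m, m'), mem_product.mpr ⟨(hU m).mpr hm, (hU m').mpr hm'⟩, hne, hd⟩)
  refine ⟨N₀ + 1, fun N hN o ho => ?_⟩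
  by_contra hcon
  push Not at hcon
  obtain ⟨j, hj, i, hi⟩ := hN₀ N (by omega) o ho (by
    refine le_trans ?_ hcon.le
    refine mul_le_mul_of_nonneg_right (mul_le_mul_of_nonneg_right heε (by positivity)) (by positivity))
  obtain ⟨hpos, hwt⟩ := hblk j hj
  have hPj : ∀ p ∈ PB j, p.Prime := fun p hp => PB_prime hp
  -- pigeonhole
  obtain ⟨⟨m, m'⟩, hmU, hm⟩ := kpig (PB j) (wt (PB j)) (fun p _ => wt_nonneg (PB j) p) (U ×ˢ U) (hUne.product hUne)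
    (fun p q m => p ≠ q ∧ (m.1 ≠ 0 ∨ m.2 ≠ 0) ∧ dZ ((p : ℝ) ^ t * dot m.1 (fr (o (i q))) + (q : ℝ) ^ t * dot m.2 (fr (o (i p)))) ≤ τ) (e ^ 2 / 16384) (by
      refine hi.trans (sum_le_sum fun p _ => sum_le_sum fun q _ => mul_le_mul_of_nonneg_left ?_ (mul_nonneg (wt_nonneg _ _) (wt_nonneg _ _)))
      by_cases h1 : p ≠ q ∧ R p q (o (i q)) (o (i p))
      · obtain ⟨hpq, m, hmU, hne, hd⟩ := h1
        rw [if_pos ⟨hpq, m, hmU, hne, hd⟩, if_pos ⟨m, hmU, hpq, hne, hd⟩]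
      · rw [if_neg h1]
        split_ifs <;> norm_num)
  rw [← hκ₂] at hm
  rw [mem_product] at hmU
  obtain ⟨hmU1, hmU2⟩ := hmU
  dsimp only at hm hmU1 hmU2
  -- both vectors are nonzero
  obtain ⟨p₁, hp₁, q₁, hq₁, hpq₁, hne₁, hd₁⟩ : ∃ p ∈ PB j, ∃ q ∈ PB j, p ≠ q ∧ (m ≠ 0 ∨ m' ≠ 0) ∧
      dZ ((p : ℝ) ^ t * dot m (fr (o (i q))) + (q : ℝ) ^ t * dot m' (fr (o (i p)))) ≤ τ := by
    by_contra hno
    push Not at hno
    have h2 : κ₂ ≤ 0 := by
      refine hm.trans (le_of_eq (sum_eq_zero fun p hp => sum_eq_zero fun q hq => ?_))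
      rw [if_neg, mul_zero]
      rintro ⟨h2, h3, h4⟩
      exact absurd h4 (not_le.mpr (hno p hp q hq h2 h3))
    linarith
  have hm0 : m ≠ 0 := by
    rintro rfl
    have hm'0 : m' ≠ 0 := by
      rcases hne₁ with h | h
      · exact absurd rfl h
      · exact h
    rw [dot_zero_left, mul_zero, zero_add] at hd₁
    have h1 := hc q₁ (hPB j hj q₁ hq₁) _ (hmemC m' (mem_filter.mpr ⟨hmU2, hm'0⟩) _ (ho (i p₁)))
    linarith
  have hm'0 : m' ≠ 0 := by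
    rintro rfl
    rw [dot_zero_left, mul_zero, add_zero] at hd₁
    have h1 := hc p₁ (hPB j hj p₁ hp₁) _ (hmemC m (mem_filter.mpr ⟨hmU1, hm0⟩) _ (ho (i q₁)))
    linarith
  refine contradiction_of_pairs_o t ht (PB j) hPj X (hX j hj) (fun p γ => (∃ x ∈ C, |(p : ℝ) ^ t * γ - x| ≤ ρ) ∧ (∀ r : ℕ, 1 ≤ r → r < R₀ → ∀ b : ℤ, ρ₀ ≤ |(p : ℝ) ^ t * γ - b / r|)) κ₂ τ hκ₂0 hτ0 hτX hpos
    (fun p hp => (hwt p hp).trans (min_le_right _ _)) (fun γ => by
      refine le_trans (le_of_eq (sum_congr rfl fun p _ => ?_)) (hj' j (hj₀.trans (mem_Ico.1 hj).1) γ)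
      congr)
    (fun q => dot m (fr (o (i q)))) (fun p => -dot m' (fr (o (i p)))) (fun q _ γ h2 => ?_) ?_
  · obtain ⟨z, hz⟩ := exists_int ((q : ℝ) ^ t * γ - dot m (fr (o (i q))))
    have hxC : dot m (fr (o (i q))) + z ∈ C := hCper _ (hmemC m (mem_filter.mpr ⟨hmU1, hm0⟩) _ (ho (i q))) z
    have hxd : |(q : ℝ) ^ t * γ - (dot m (fr (o (i q))) + z)| ≤ ρm := by
      rw [← sub_sub, hz]
      exact h2.trans hτρ
    refine ⟨⟨_, hxC, hxd.trans (min_le_left _ _)⟩, fun r hr1 hr2 b => ?_⟩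
    have h3 := hdist _ hxC r hr1 hr2 b
    have h4 := hxd.trans (min_le_right _ _)
    have h5 : |(dot m (fr (o (i q))) + z) - b / r| ≤ |(q : ℝ) ^ t * γ - b / r| + |(q : ℝ) ^ t * γ - (dot m (fr (o (i q))) + z)| := by
      have h6 : (dot m (fr (o (i q))) + z) - b / r = ((q : ℝ) ^ t * γ - b / r) - ((q : ℝ) ^ t * γ - (dot m (fr (o (i q))) + z)) := by ring
      rw [h6]
      exact abs_sub _ _
    linarith
  refine hm.trans (sum_le_sum fun p _ => sum_le_sum fun q _ => mul_le_mul_of_nonneg_left ?_ (mul_nonneg (wt_nonneg _ _) (wt_nonneg _ _)))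
  by_cases h1 : p ≠ q ∧ (m ≠ 0 ∨ m' ≠ 0) ∧ dZ ((p : ℝ) ^ t * dot m (fr (o (i q))) + (q : ℝ) ^ t * dot m' (fr (o (i p)))) ≤ τ
  · rw [if_pos h1]
    have h2 : p ≠ q ∧ dZ ((p : ℝ) ^ t * dot m (fr (o (i q))) - (q : ℝ) ^ t * -dot m' (fr (o (i p)))) ≤ τ := by
      refine ⟨h1.1, ?_⟩
      rw [mul_neg, sub_neg_eq_add]
      exact h1.2.2
    rw [if_pos h2]
  · rw [if_neg h1]
    split_ifs <;> norm_num

end Pool.Agent.Lib.MP_3e612f_nt.NF
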