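import Pool.Agent.Lib.MP_3e612f_nt.NF.O.Defs

/-! The inequality of Turan and Kubilius, ordinary averages. -/

set_option autoImplicit false

namespace Pool.Agent.Lib.MP_3e612f_nt.NF

open Finset
open Pool.Agent.Lib.MP_3e612f_nt.MR (mu ex)

/-- the number of multiples of `d` up to `N` -/
private theorem TKo_cnt (d N : ℕ) :
    ∑ m ∈ Icc 1 N, (if d ∣ m then (1 : ℝ) else 0) = ((N / d : ℕ) : ℝ) := by
  rw [← sum_filter, sum_const, nsmul_eq_mul, mul_one]
  congr 1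
  have h := Nat.Ioc_filter_dvd_card_eq_div N d
  rw [← h]
  congr 1

private theorem TKo_le (d N : ℕ) : ((N / d : ℕ) : ℝ) ≤ N / d := Nat.cast_div_le

private theorem TKo_ge (d N : ℕ) (hd : 1 ≤ d) : (N : ℝ) / d - 1 ≤ ((N / d : ℕ) : ℝ) := by
  have hd0 : (0 : ℝ) < d := by exact_mod_cast hd
  have h1 := Nat.div_add_mod N d
  have h2 := Nat.mod_lt N (show 0 < d from hd)
  have h3 : (d : ℝ) * ((N / d : ℕ) : ℝ) + ((N % d : ℕ) : ℝ) = N := by exact_mod_cast h1
  have h4 : ((N % d : ℕ) : ℝ) ≤ d := by exact_mod_cast h2.le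
  rw [sub_le_iff_le_add, div_le_iff₀ hd0]
  nlinarith

/-- Turan - Kubilius, ordinary averages. As `tk` (K/TK): expand the square; `#{m ≤ N : d ∣ m} = ⌊N/d⌋`. Diagonal: `(1 - 2/p) ⌊N/p⌋ + N/p² ≤ N/p`; `p ≠ q`: `⌊N/(pq)⌋ - ⌊N/p⌋/q - ⌊N/q⌋/p + N/(pq) ≤ 1/q + 1/p ≤ 3`. -/
theorem tk_o (P : Finset ℕ) (hP : ∀ p ∈ P, p.Prime) (N : ℕ) :
    ∑ m ∈ Icc 1 N, (∑ p ∈ P, ((if p ∣ m then 1 else 0) - 1 / (p : ℝ))) ^ 2 ≤ (∑ p ∈ P, 1 / (p : ℝ)) * N + 3 * (#P : ℝ) ^ 2 := by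
  set E : ℕ → ℕ → ℝ := fun p m => (if p ∣ m then 1 else 0) - 1 / (p : ℝ) with hE
  have h1 : ∑ m ∈ Icc 1 N, (∑ p ∈ P, E p m) ^ 2 = ∑ p ∈ P, ∑ q ∈ P, ∑ m ∈ Icc 1 N, (E p m * E q m) := by
    have h2 : ∀ m ∈ Icc 1 N, (∑ p ∈ P, E p m) ^ 2 = ∑ p ∈ P, ∑ q ∈ P, (E p m * E q m) := by
      intro m _
      rw [sq, sum_mul_sum]
    rw [sum_congr rfl h2, sum_comm]
    refine sum_congr rfl fun p _ => ?_
    rw [sum_comm]
  have hN : ∑ m ∈ Icc 1 N, (1 : ℝ) = N := by
    rw [sum_const, Nat.card_Icc, Nat.add_sub_cancel, nsmul_eq_mul, mul_one]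
  have h3 : ∀ p ∈ P, ∀ q ∈ P, ∑ m ∈ Icc 1 N, (E p m * E q m) ≤ (if p = q then 1 / (p : ℝ) * N else 0) + 3 := by
    intro p hp q hq
    have hp0 : (2 : ℝ) ≤ p := by exact_mod_cast (hP p hp).two_le
    have hq0 : (2 : ℝ) ≤ q := by exact_mod_cast (hP q hq).two_le
    have hp1 : 1 ≤ p := (hP p hp).one_le
    have hq1 : 1 ≤ q := (hP q hq).one_le
    have hN0 : (0 : ℝ) ≤ N := Nat.cast_nonneg N
    by_cases hpq : p = q
    · subst hpq
      rw [if_pos rfl]
      have h4 : ∑ m ∈ Icc 1 N, (E p m * E p m) = (1 - 2 / p) * ((N / p : ℕ) : ℝ) + 1 / p ^ 2 * N := by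
        rw [← TKo_cnt p N, ← hN, mul_sum, mul_sum, ← sum_add_distrib]
        refine sum_congr rfl fun m _ => ?_
        rw [hE]
        dsimp only
        split_ifs <;> ring
      rw [h4]
      have h5 : (1 - 2 / (p : ℝ)) * ((N / p : ℕ) : ℝ) ≤ (1 - 2 / p) * (N / p) := by
        have h6 : (0 : ℝ) ≤ 1 - 2 / p := by
          rw [sub_nonneg, div_le_one (by linarith)]
          exact hp0
        exact mul_le_mul_of_nonneg_left (TKo_le p N) h6
      have h6 : (1 - 2 / (p : ℝ)) * (N / p) + 1 / p ^ 2 * N = 1 / p * N - 1 / p ^ 2 * N := by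
        field_simp
        ring
      have h7 : 0 ≤ 1 / (p : ℝ) ^ 2 * N := by positivity
      linarith
    · rw [if_neg hpq, zero_add]
      have hcop : Nat.Coprime p q := (Nat.coprime_primes (hP p hp) (hP q hq)).mpr hpq
      have h4 : ∑ m ∈ Icc 1 N, (E p m * E q m) = ((N / (p * q) : ℕ) : ℝ) - 1 / q * ((N / p : ℕ) : ℝ)
          - 1 / p * ((N / q : ℕ) : ℝ) + 1 / ((p : ℝ) * q) * N := by
        rw [← TKo_cnt (p * q) N, ← TKo_cnt p N, ← TKo_cnt q N, ← hN, mul_sum, mul_sum, mul_sum, ← sum_sub_distrib,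
          ← sum_sub_distrib, ← sum_add_distrib]
        refine sum_congr rfl fun m _ => ?_
        rw [hE]
        dsimp only
        have h6 : (p * q ∣ m) ↔ (p ∣ m ∧ q ∣ m) := by
          constructor
          · intro h
            exact ⟨(dvd_mul_right p q).trans h, (dvd_mul_left q p).trans h⟩
          · intro h
            exact hcop.mul_dvd_of_dvd_of_dvd h.1 h.2
        by_cases h7 : p ∣ m <;> by_cases h8 : q ∣ m <;> simp only [h6, h7, h8, and_self, and_true, and_false, if_true, if_false] <;> ring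
      rw [h4]
      have b1 := TKo_le (p * q) N
      have b2 := TKo_ge p N hp1
      have b3 := TKo_ge q N hq1
      push_cast at b1
      have c2 : 1 / (q : ℝ) * (N / p - 1) ≤ 1 / q * ((N / p : ℕ) : ℝ) :=
        mul_le_mul_of_nonneg_left b2 (by positivity)
      have c3 : 1 / (p : ℝ) * (N / q - 1) ≤ 1 / p * ((N / q : ℕ) : ℝ) :=
        mul_le_mul_of_nonneg_left b3 (by positivity)
      have d2 : 1 / (q : ℝ) * (N / p - 1) = N / (p * q) - 1 / q := by
        field_simp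
      have d3 : 1 / (p : ℝ) * (N / q - 1) = N / (p * q) - 1 / p := by
        field_simp
      have d4 : 1 / ((p : ℝ) * q) * N = N / (p * q) := by
        ring
      have e2 : 1 / (q : ℝ) ≤ 1 := by
        rw [div_le_one (by linarith)]
        linarith
      have e3 : 1 / (p : ℝ) ≤ 1 := by
        rw [div_le_one (by linarith)]
        linarith
      rw [d2] at c2
      rw [d3] at c3
      rw [d4]
      linarith
  rw [h1]
  refine (sum_le_sum fun p hp => sum_le_sum fun q hq => h3 p hp q hq).trans (le_of_eq ?_)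
  have h4 : ∀ p ∈ P, ∑ q ∈ P, ((if p = q then 1 / (p : ℝ) * N else 0) + 3) = 1 / (p : ℝ) * N + 3 * (#P : ℝ) := by
    intro p hp
    rw [sum_add_distrib, sum_ite_eq, if_pos hp, sum_const, nsmul_eq_mul]
    ring
  rw [sum_congr rfl h4, sum_add_distrib, ← sum_mul, sum_const, nsmul_eq_mul]
  ring

end Pool.Agent.Lib.MP_3e612f_nt.NF
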